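import Mathlib
import Pool.Agent.H62.AhlforsBeurling

/-!
# RCV/Cau : Cauchy transforms of bounded densities on a compact set

They are continuous on the sphere, holomorphic off the compact set, and separate points.
-/

set_option autoImplicit false

open MeasureTheory Set Complex Filter Topology Metric
open scoped ENNReal Real

namespace Pool.Agent.RCV

theorem lintegral_inv_le (T : Set ℂ) (ζ : ℂ) {lam : ℝ} (hl : 0 < lam) :
    ∫⁻ w in T, ‖(ζ - w)⁻¹‖ₑ ≤
      4 * (ENNReal.ofReal lam * volume T + ENNReal.ofReal (π / (4 * lam))) := by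
  have h1 : ∀ w, ‖(ζ - w)⁻¹‖ₑ ≤ ENNReal.ofReal ((1 / (ζ - w)).re) +
      ENNReal.ofReal (((-1) / (ζ - w)).re) + (ENNReal.ofReal (((-I) / (ζ - w)).re) +
      ENNReal.ofReal ((I / (ζ - w)).re)) := by
    intro w
    set v : ℂ := (ζ - w)⁻¹ with hv
    have e1 : (1 / (ζ - w)).re = v.re := by rw [one_div]
    have e2 : ((-1) / (ζ - w)).re = -v.re := by
      rw [neg_div, one_div, neg_re]
    have e3 : ((-I) / (ζ - w)).re = v.im := by
      rw [div_eq_mul_inv, ← hv]; simp
    have e4 : (I / (ζ - w)).re = -v.im := by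
      rw [div_eq_mul_inv, ← hv]; simp
    rw [e1, e2, e3, e4]
    have h2 : ∀ x : ℝ, ENNReal.ofReal |x| ≤ ENNReal.ofReal x + ENNReal.ofReal (-x) := by
      intro x
      rcases le_total 0 x with h | h
      · rw [abs_of_nonneg h]; exact le_add_right le_rfl
      · rw [abs_of_nonpos h]; exact le_add_left le_rfl
    calc ‖v‖ₑ = ENNReal.ofReal ‖v‖ := (ofReal_norm v).symm
      _ ≤ ENNReal.ofReal (|v.re| + |v.im|) :=
          ENNReal.ofReal_le_ofReal (Complex.norm_le_abs_re_add_abs_im v)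
      _ = ENNReal.ofReal |v.re| + ENNReal.ofReal |v.im| :=
          ENNReal.ofReal_add (abs_nonneg _) (abs_nonneg _)
      _ ≤ _ := add_le_add (h2 _) (h2 _)
  set D := ENNReal.ofReal lam * volume T + ENNReal.ofReal (π / (4 * lam)) with hD
  have key : ∀ u : ℂ, ‖u‖ = 1 → ∫⁻ w in T, ENNReal.ofReal ((u / (ζ - w)).re) ≤ D :=
    fun u hu => H62.lintegral_re_le T ζ u hu lam hl
  calc ∫⁻ w in T, ‖(ζ - w)⁻¹‖ₑ
      ≤ ∫⁻ w in T, (ENNReal.ofReal ((1 / (ζ - w)).re) +
      ENNReal.ofReal (((-1) / (ζ - w)).re) + (ENNReal.ofReal (((-I) / (ζ - w)).re) +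
      ENNReal.ofReal ((I / (ζ - w)).re))) := lintegral_mono (fun w => h1 w)
    _ = (∫⁻ w in T, ENNReal.ofReal ((1 / (ζ - w)).re)) +
      (∫⁻ w in T, ENNReal.ofReal (((-1) / (ζ - w)).re)) +
      ((∫⁻ w in T, ENNReal.ofReal (((-I) / (ζ - w)).re)) +
      (∫⁻ w in T, ENNReal.ofReal ((I / (ζ - w)).re))) := by
        rw [lintegral_add_left (by fun_prop), lintegral_add_left (by fun_prop),
          lintegral_add_left (by fun_prop)]
    _ ≤ (D + D) + (D + D) := by
        refine add_le_add (add_le_add ?_ ?_) (add_le_add ?_ ?_)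
        · exact key 1 (by simp)
        · exact key (-1) (by simp)
        · exact key (-I) (by simp)
        · exact key I (by simp)
    _ = 4 * D := by ring

theorem lintegral_ball_le (ζ : ℂ) {ε : ℝ} (hε : 0 < ε) :
    ∫⁻ w in ball ζ ε, ‖(ζ - w)⁻¹‖ₑ ≤ ENNReal.ofReal (5 * π * ε) := by
  have hπ := Real.pi_pos
  refine (lintegral_inv_le (ball ζ ε) ζ (lam := 1 / ε) (by positivity)).trans (le_of_eq ?_)
  have e : volume (ball ζ ε) = ENNReal.ofReal (π * ε ^ 2) := by
    rw [Complex.volume_ball, mul_comm, ENNReal.ofReal_mul hπ.le, ENNReal.ofReal_pow hε.le]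
    congr 1
    rw [← NNReal.coe_real_pi, ENNReal.ofReal_coe_nnreal]
  rw [e, ← ENNReal.ofReal_mul (by positivity), ← ENNReal.ofReal_add (by positivity) (by positivity)]
  have e4 : (4 : ℝ≥0∞) = ENNReal.ofReal 4 := by norm_num
  rw [e4, ← ENNReal.ofReal_mul (by norm_num)]
  congr 1
  field_simp
  ring

/-- Cauchy transform of the density `φ` on `S` -/
noncomputable def cau (S : Set ℂ) (φ : ℂ → ℂ) (w : ℂ) : ℂ := ∫ z in S, φ z * (w - z)⁻¹

/-- regularised kernel -/
noncomputable def ker (ε : ℝ) (v : ℂ) : ℂ := (starRingEnd ℂ) v / ((max ‖v‖ ε : ℝ) : ℂ) ^ 2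

theorem ker_cont {ε : ℝ} (hε : 0 < ε) : Continuous (ker ε) := by
  unfold ker
  refine Continuous.div (by fun_prop) (by fun_prop) fun v => ?_
  have : 0 < max ‖v‖ ε := lt_max_of_lt_right hε
  exact pow_ne_zero _ (by exact_mod_cast this.ne')

theorem ker_norm {ε : ℝ} (hε : 0 < ε) (v : ℂ) : ‖ker ε v‖ ≤ 1 / ε := by
  have h : 0 < max ‖v‖ ε := lt_max_of_lt_right hε
  rw [ker, norm_div, norm_pow, RCLike.norm_conj, Complex.norm_real, Real.norm_of_nonneg h.le,
    div_le_div_iff₀ (by positivity) hε]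
  have h1 : ‖v‖ ≤ max ‖v‖ ε := le_max_left _ _
  have h2 : ε ≤ max ‖v‖ ε := le_max_right _ _
  nlinarith [norm_nonneg v]

theorem ker_eq {ε : ℝ} {v : ℂ} (hv : ε ≤ ‖v‖) : v⁻¹ - ker ε v = 0 := by
  rw [ker, max_eq_left hv, sub_eq_zero, Complex.inv_def, Complex.normSq_eq_norm_sq, div_eq_mul_inv]
  push_cast
  rfl

theorem ker_sub {ε : ℝ} (hε : 0 < ε) {v : ℂ} (hv : ‖v‖ < ε) : ‖v⁻¹ - ker ε v‖ ≤ ‖v⁻¹‖ := by
  rcases eq_or_ne v 0 with h0 | h0
  · subst h0
    simp [ker]
  have e : v⁻¹ - ker ε v = v⁻¹ * (((1 - ‖v‖ ^ 2 / ε ^ 2 : ℝ)) : ℂ) := by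
    rw [ker, max_eq_right hv.le]
    have h1 : (ε : ℂ) ≠ 0 := by exact_mod_cast hε.ne'
    have h2 : ((‖v‖ : ℝ) : ℂ) ^ 2 = v * (starRingEnd ℂ) v := (Complex.mul_conj' v).symm
    push_cast
    rw [h2]
    field_simp
  rw [e, norm_mul, Complex.norm_real]
  refine mul_le_of_le_one_right (norm_nonneg _) ?_
  have h3 : ‖v‖ ^ 2 / ε ^ 2 ≤ 1 := by
    rw [div_le_one (by positivity)]
    exact pow_le_pow_left₀ (norm_nonneg _) hv.le 2
  have h4 : 0 ≤ ‖v‖ ^ 2 / ε ^ 2 := by positivity
  rw [Real.norm_eq_abs, abs_le]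
  constructor <;> linarith

variable {S : Set ℂ} {φ : ℂ → ℂ}

theorem cau_int (hS : IsCompact S) (hm : Measurable φ) (hb : ∀ z, ‖φ z‖ ≤ 1) (w : ℂ) :
    IntegrableOn (fun z => φ z * (w - z)⁻¹) S := by
  have h := H62.integrableOn_inv_sub (T := S) hS.measure_lt_top.ne w
  exact h.bdd_mul (c := 1) hm.aestronglyMeasurable (Eventually.of_forall hb)

theorem cau_cont (hS : IsCompact S) (hm : Measurable φ) (hb : ∀ z, ‖φ z‖ ≤ 1) :
    Continuous (cau S φ) := by
  have hfin : IsFiniteMeasure (volume.restrict S) := ⟨by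
    rw [Measure.restrict_apply_univ]; exact hS.measure_lt_top⟩
  have hc : ∀ ε : ℝ, 0 < ε → Continuous fun w => ∫ z in S, φ z * ker ε (w - z) := by
    intro ε hε
    refine continuous_of_dominated (bound := fun _ => 1 / ε) (fun w => ?_) (fun w => ?_)
      (integrable_const _) (Eventually.of_forall fun z => ?_)
    · exact (hm.mul ((ker_cont hε).measurable.comp (by fun_prop))).aestronglyMeasurable
    · refine Eventually.of_forall fun z => ?_
      rw [norm_mul]
      calc ‖φ z‖ * ‖ker ε (w - z)‖ ≤ 1 * (1 / ε) :=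
            mul_le_mul (hb z) (ker_norm hε _) (norm_nonneg _) zero_le_one
        _ = 1 / ε := one_mul _
    · exact continuous_const.mul ((ker_cont hε).comp (by fun_prop))
  have hd : ∀ ε : ℝ, 0 < ε → ∀ w, ‖cau S φ w - ∫ z in S, φ z * ker ε (w - z)‖ ≤ 5 * π * ε := by
    intro ε hε w
    have hint : IntegrableOn (fun z => φ z * ker ε (w - z)) S := by
      refine Integrable.mono' (integrable_const (1 / ε))
        (hm.mul ((ker_cont hε).measurable.comp (by fun_prop))).aestronglyMeasurable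
        (Eventually.of_forall fun z => ?_)
      rw [norm_mul]
      calc ‖φ z‖ * ‖ker ε (w - z)‖ ≤ 1 * (1 / ε) :=
            mul_le_mul (hb z) (ker_norm hε _) (norm_nonneg _) zero_le_one
        _ = 1 / ε := one_mul _
    rw [cau, ← integral_sub (cau_int hS hm hb w) hint]
    have h1 : ‖∫ z in S, (φ z * (w - z)⁻¹ - φ z * ker ε (w - z))‖ₑ ≤
        ENNReal.ofReal (5 * π * ε) := by
      calc ‖∫ z in S, (φ z * (w - z)⁻¹ - φ z * ker ε (w - z))‖ₑ
          ≤ ∫⁻ z in S, ‖φ z * (w - z)⁻¹ - φ z * ker ε (w - z)‖ₑ :=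
            enorm_integral_le_lintegral_enorm _
        _ ≤ ∫⁻ z in S, (ball w ε).indicator (fun z => ‖(w - z)⁻¹‖ₑ) z := by
            refine lintegral_mono fun z => ?_
            have e : φ z * (w - z)⁻¹ - φ z * ker ε (w - z) =
                φ z * ((w - z)⁻¹ - ker ε (w - z)) := by ring
            rw [e]
            by_cases hz : z ∈ ball w ε
            · rw [indicator_of_mem hz, ← ofReal_norm, ← ofReal_norm]
              refine ENNReal.ofReal_le_ofReal ?_
              rw [norm_mul]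
              have hz' : ‖w - z‖ < ε := by rw [← dist_eq_norm, dist_comm]; exact hz
              calc ‖φ z‖ * ‖(w - z)⁻¹ - ker ε (w - z)‖ ≤ 1 * ‖(w - z)⁻¹‖ :=
                    mul_le_mul (hb z) (ker_sub hε hz') (norm_nonneg _) zero_le_one
                _ = _ := one_mul _
            · have hz' : ε ≤ ‖w - z‖ := by
                rw [← dist_eq_norm, dist_comm]
                exact not_lt.1 hz
              rw [indicator_of_notMem hz, ker_eq hz', mul_zero, enorm_zero]
        _ ≤ ∫⁻ z, (ball w ε).indicator (fun z => ‖(w - z)⁻¹‖ₑ) z := setLIntegral_le_lintegral _ _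
        _ = ∫⁻ z in ball w ε, ‖(w - z)⁻¹‖ₑ := lintegral_indicator measurableSet_ball _
        _ ≤ _ := lintegral_ball_le w hε
    rw [← ofReal_norm] at h1
    exact (ENNReal.ofReal_le_ofReal_iff (by positivity)).1 h1
  have hu : TendstoUniformly (fun (ε : ℝ) w => ∫ z in S, φ z * ker ε (w - z)) (cau S φ)
      (𝓝[>] 0) := by
    rw [Metric.tendstoUniformly_iff]
    intro δ hδ
    have h1 : ∀ᶠ ε : ℝ in 𝓝[>] 0, 5 * π * ε < δ := by
      have h2 : Tendsto (fun ε : ℝ => 5 * π * ε) (𝓝[>] 0) (𝓝 (5 * π * 0)) :=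
        (tendsto_id.const_mul (5 * π)).mono_left nhdsWithin_le_nhds
      rw [mul_zero] at h2
      exact h2.eventually (gt_mem_nhds hδ)
    filter_upwards [h1, self_mem_nhdsWithin] with ε h2 h3 w
    rw [dist_eq_norm]
    exact (hd ε h3 w).trans_lt h2
  refine hu.continuous (Eventually.frequently ?_)
  filter_upwards [self_mem_nhdsWithin] with ε hε
  exact hc ε hε

theorem cau_tendsto (hS : IsCompact S) (hb : ∀ z, ‖φ z‖ ≤ 1) :
    Tendsto (cau S φ) (coclosedCompact ℂ) (𝓝 0) := by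
  rw [coclosedCompact_eq_cocompact]
  obtain ⟨R, hR⟩ := hS.isBounded.subset_closedBall 0
  have h1 : ∀ᶠ w : ℂ in cocompact ℂ, ‖cau S φ w‖ ≤ (volume.real S * 2) / ‖w‖ := by
    have h2 : ∀ᶠ w : ℂ in cocompact ℂ, 2 * |R| + 1 < ‖w‖ :=
      (tendsto_norm_cocompact_atTop (E := ℂ)).eventually (eventually_gt_atTop _)
    filter_upwards [h2] with w hw
    have hw0 : 0 < ‖w‖ := by
      have := abs_nonneg R
      linarith
    have h3 : ∀ z ∈ S, ‖φ z * (w - z)⁻¹‖ ≤ 2 / ‖w‖ := by
      intro z hz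
      have hz' : ‖z‖ ≤ |R| := by
        have := hR hz
        rw [mem_closedBall, dist_zero_right] at this
        exact this.trans (le_abs_self R)
      have h4 : ‖w‖ / 2 ≤ ‖w - z‖ := by
        have := norm_sub_norm_le w z
        linarith
      rw [norm_mul, norm_inv]
      calc ‖φ z‖ * ‖w - z‖⁻¹ ≤ 1 * (‖w‖ / 2)⁻¹ :=
            mul_le_mul (hb z) (inv_anti₀ (by positivity) h4) (by positivity) zero_le_one
        _ = 2 / ‖w‖ := by rw [one_mul, inv_div]
    have h5 := norm_setIntegral_le_of_norm_le_const (μ := volume) hS.measure_lt_top h3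
    refine h5.trans (le_of_eq ?_)
    ring
  refine squeeze_zero_norm' h1 ?_
  exact Tendsto.div_atTop tendsto_const_nhds tendsto_norm_cocompact_atTop

theorem cau_diff (hS : IsCompact S) (hm : Measurable φ) (hb : ∀ z, ‖φ z‖ ≤ 1) {w₀ : ℂ}
    (hw : w₀ ∉ S) : DifferentiableAt ℂ (cau S φ) w₀ := by
  have hfin : IsFiniteMeasure (volume.restrict S) := ⟨by
    rw [Measure.restrict_apply_univ]; exact hS.measure_lt_top⟩
  obtain ⟨δ, hδ, hball⟩ := Metric.isOpen_iff.1 hS.isClosed.isOpen_compl w₀ hw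
  have hfar : ∀ z ∈ S, ∀ w ∈ ball w₀ (δ / 2), δ / 2 ≤ ‖w - z‖ := by
    intro z hz w hw'
    by_contra hcon
    push_neg at hcon
    have h1 : dist z w₀ < δ := by
      calc dist z w₀ ≤ dist z w + dist w w₀ := dist_triangle _ _ _
        _ < δ / 2 + δ / 2 := by
            refine add_lt_add ?_ hw'
            rw [dist_comm, dist_eq_norm]; exact hcon
        _ = δ := by ring
    exact hball h1 hz
  have hae : ∀ᵐ z ∂(volume.restrict S), z ∈ S := ae_restrict_mem hS.measurableSet
  have hnhds : ball w₀ (δ / 2) ∈ 𝓝 w₀ := ball_mem_nhds _ (by positivity)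
  have h := hasDerivAt_integral_of_dominated_loc_of_deriv_le (μ := volume.restrict S)
    (F := fun w z => φ z * (w - z)⁻¹) (F' := fun w z => φ z * (-1 / (w - z) ^ 2))
    (bound := fun _ => 1 / (δ / 2) ^ 2) (x₀ := w₀) hnhds
    (Eventually.of_forall fun w => (hm.mul (by fun_prop)).aestronglyMeasurable)
    (cau_int hS hm hb w₀)
    (hm.mul (by fun_prop)).aestronglyMeasurable ?_ (integrable_const _) ?_
  · exact h.2.differentiableAt
  · filter_upwards [hae] with z hz w hw'
    have h1 := hfar z hz w hw'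
    rw [norm_mul, norm_div, norm_neg, norm_one, norm_pow]
    calc ‖φ z‖ * (1 / ‖w - z‖ ^ 2) ≤ 1 * (1 / (δ / 2) ^ 2) := by
          refine mul_le_mul (hb z) ?_ (by positivity) zero_le_one
          exact one_div_le_one_div_of_le (by positivity) (pow_le_pow_left₀ (by positivity) h1 2)
      _ = _ := one_mul _
  · filter_upwards [hae] with z hz w hw'
    have h1 := hfar z hz w hw'
    have h2 : w - z ≠ 0 := by
      intro h0
      rw [h0, norm_zero] at h1
      linarith
    have h3 : HasDerivAt (fun w : ℂ => w - z) 1 w := (hasDerivAt_id w).sub_const z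
    exact (h3.inv h2).const_mul (φ z)

/-- the Cauchy transform on the sphere -/
noncomputable def cauS (S : Set ℂ) (φ : ℂ → ℂ) (x : OnePoint ℂ) : ℂ := x.elim 0 (cau S φ)

theorem cauS_cont (hS : IsCompact S) (hm : Measurable φ) (hb : ∀ z, ‖φ z‖ ≤ 1) :
    Continuous (cauS S φ) := by
  rw [OnePoint.continuous_iff]
  exact ⟨cau_tendsto hS hb, cau_cont hS hm hb⟩

theorem cauS_bdd (hS : IsCompact S) (hm : Measurable φ) (hb : ∀ z, ‖φ z‖ ≤ 1) :
    ∃ M, 0 < M ∧ ∀ x, ‖cauS S φ x‖ < M := by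
  obtain ⟨M, hM⟩ := (isCompact_range (cauS_cont hS hm hb)).isBounded.subset_ball 0
  refine ⟨max M 1, by positivity, fun x => ?_⟩
  have := hM (mem_range_self x)
  rw [mem_ball, dist_zero_right] at this
  exact this.trans_le (le_max_left _ _)

/-- the kernel on the sphere -/
noncomputable def kap (x : OnePoint ℂ) (z : ℂ) : ℂ := x.elim 0 fun w => (w - z)⁻¹

theorem kap_meas (x : OnePoint ℂ) : Measurable (kap x) := by
  induction x using OnePoint.rec with
  | infty => exact measurable_const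
  | coe w => show Measurable fun z => (w - z)⁻¹; fun_prop

theorem cauS_eq (x : OnePoint ℂ) : cauS S φ x = ∫ z in S, φ z * kap x z := by
  induction x using OnePoint.rec with
  | infty => simp [cauS, kap]
  | coe w => rfl

theorem cauS_int (hS : IsCompact S) (hm : Measurable φ) (hb : ∀ z, ‖φ z‖ ≤ 1)
    (x : OnePoint ℂ) : IntegrableOn (fun z => φ z * kap x z) S := by
  induction x using OnePoint.rec with
  | infty => simp [kap]
  | coe w => exact cau_int hS hm hb w

theorem kap_ne {x y : OnePoint ℂ} (hxy : x ≠ y) {z : ℂ} (hx : (z : OnePoint ℂ) ≠ x)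
    (hy : (z : OnePoint ℂ) ≠ y) : kap x z - kap y z ≠ 0 := by
  induction x using OnePoint.rec with
  | infty =>
    induction y using OnePoint.rec with
    | infty => exact absurd rfl hxy
    | coe w =>
      show (0 : ℂ) - (w - z)⁻¹ ≠ 0
      rw [zero_sub, neg_ne_zero]
      refine inv_ne_zero (sub_ne_zero.2 fun h => hy ?_)
      rw [h]
  | coe v =>
    have hv : v - z ≠ 0 := sub_ne_zero.2 fun h => hx (by rw [h])
    induction y using OnePoint.rec with
    | infty =>
      show (v - z)⁻¹ - 0 ≠ 0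
      rw [sub_zero]
      exact inv_ne_zero hv
    | coe w =>
      show (v - z)⁻¹ - (w - z)⁻¹ ≠ 0
      intro h
      rw [sub_eq_zero, inv_inj] at h
      exact hxy (by rw [sub_left_injective h])

/-- Cauchy transforms separate the points of the sphere. -/
theorem cauS_sep (hS : IsCompact S) (hpos : volume S ≠ 0) {x y : OnePoint ℂ} (hxy : x ≠ y) :
    ∃ φ : ℂ → ℂ, Measurable φ ∧ (∀ z, ‖φ z‖ ≤ 1) ∧ cauS S φ x ≠ cauS S φ y := by
  set k : ℂ → ℂ := fun z => kap x z - kap y z with hk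
  have hkm : Measurable k := (kap_meas x).sub (kap_meas y)
  set φ : ℂ → ℂ := fun z => (starRingEnd ℂ) (k z) / ((1 + ‖k z‖ ^ 2 : ℝ) : ℂ) with hφ
  have hm : Measurable φ := by
    refine Measurable.div (Complex.continuous_conj.measurable.comp hkm) ?_
    exact Complex.measurable_ofReal.comp (measurable_const.add (hkm.norm.pow_const 2))
  have hb : ∀ z, ‖φ z‖ ≤ 1 := by
    intro z
    have h1 : 0 < 1 + ‖k z‖ ^ 2 := by positivity
    rw [hφ]
    simp only
    rw [norm_div, RCLike.norm_conj, Complex.norm_real, Real.norm_of_nonneg h1.le, div_le_one h1]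
    nlinarith [sq_nonneg (‖k z‖ - 1), norm_nonneg (k z)]
  refine ⟨φ, hm, hb, fun h => ?_⟩
  rw [cauS_eq, cauS_eq] at h
  have h1 : ∫ z in S, φ z * k z = 0 := by
    have e : ∀ z, φ z * k z = φ z * kap x z - φ z * kap y z := fun z => by rw [hk]; ring
    simp only [e]
    rw [integral_sub (cauS_int hS hm hb x) (cauS_int hS hm hb y), h, sub_self]
  have h2 : ∀ z, φ z * k z = ((‖k z‖ ^ 2 / (1 + ‖k z‖ ^ 2) : ℝ) : ℂ) := by
    intro z
    have e : (starRingEnd ℂ) (k z) * k z = ((‖k z‖ ^ 2 : ℝ) : ℂ) := by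
      rw [mul_comm, Complex.mul_conj']
      push_cast
      rfl
    rw [hφ]
    simp only
    rw [div_mul_eq_mul_div, e]
    push_cast
    rfl
  simp only [h2] at h1
  rw [integral_complex_ofReal] at h1
  have h3 : ∫ z in S, (‖k z‖ ^ 2 / (1 + ‖k z‖ ^ 2)) = 0 := by exact_mod_cast h1
  have hnn : ∀ z, 0 ≤ ‖k z‖ ^ 2 / (1 + ‖k z‖ ^ 2) := fun z => by positivity
  have hint : IntegrableOn (fun z => ‖k z‖ ^ 2 / (1 + ‖k z‖ ^ 2)) S := by
    have hfin : IsFiniteMeasure (volume.restrict S) := ⟨by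
      rw [Measure.restrict_apply_univ]; exact hS.measure_lt_top⟩
    refine Integrable.mono' (integrable_const 1) ?_ (Eventually.of_forall fun z => ?_)
    · exact ((hkm.norm.pow_const 2).div
        (measurable_const.add (hkm.norm.pow_const 2))).aestronglyMeasurable
    · rw [Real.norm_of_nonneg (hnn z), div_le_one (by positivity)]
      linarith [sq_nonneg ‖k z‖]
  have h4 := (integral_eq_zero_iff_of_nonneg (μ := volume.restrict S) hnn hint).1 h3
  -- so `S` is contained in `{x, y}` up to a null set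
  have h5 : ∀ᵐ z : ℂ ∂(volume.restrict S), (z : OnePoint ℂ) = x ∨ (z : OnePoint ℂ) = y := by
    filter_upwards [h4] with z hz
    by_contra hcon
    push_neg at hcon
    have h6 := kap_ne hxy hcon.1 hcon.2
    have h7 : 0 < ‖k z‖ := norm_pos_iff.2 h6
    have h8 : 0 < ‖k z‖ ^ 2 / (1 + ‖k z‖ ^ 2) := by positivity
    exact h8.ne' hz
  have h9 : ∀ v : OnePoint ℂ, ∀ᵐ z : ℂ ∂(volume.restrict S), (z : OnePoint ℂ) ≠ v := by
    intro v
    refine ae_restrict_of_ae ?_
    induction v using OnePoint.rec with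
    | infty => exact Eventually.of_forall fun z => OnePoint.coe_ne_infty z
    | coe w =>
      have : ∀ᵐ z : ℂ, z ≠ w := by
        rw [ae_iff]
        simp
      filter_upwards [this] with z hz h
      exact hz (OnePoint.coe_injective h)
  have h10 : ∀ᵐ z : ℂ ∂(volume.restrict S), False := by
    filter_upwards [h5, h9 x, h9 y] with z a1 a2 a3
    exact a1.elim a2 a3
  rw [ae_iff] at h10
  simp only [not_false_eq_true, ofPred_true, Measure.restrict_apply_univ] at h10
  exact hpos h10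

end Pool.Agent.RCV
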