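import Pool.Agent.RCV.Mont

/-!
# RCV/Cons : recurrence and dense orbits for rational maps with Julia set the sphere

The following are equivalent: almost every point of every open set returns to it; closed forward
invariant sets, not the sphere, have area zero; the omega-limit set of almost every point is the
sphere; almost every point is recurrent.
-/

set_option autoImplicit false

open Filter Topology MeasureTheory Set Polynomial Metric

namespace Pool.Agent.RCV

/-- almost every point of every open set returns to it -/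
def OpenRec (f : Sph → Sph) : Prop :=
  ∀ O : Set ℂ, IsOpen O → ∀ᵐ z ∂(volume : Measure ℂ), z ∈ O →
    ∃ n : ℕ, 1 ≤ n ∧ f^[n] (z : Sph) ∈ ((↑) : ℂ → Sph) '' O

theorem Conservative.openRec {f : Sph → Sph} (h : Conservative f) : OpenRec f :=
  fun O hO => h O hO.measurableSet

theorem openRec_of_recurrent {f : Sph → Sph}
    (h : ∀ᵐ z : ℂ, MapClusterPt (z : Sph) atTop fun n : ℕ => f^[n] (z : Sph)) : OpenRec f := by
  intro O hO
  filter_upwards [h] with z hz hzO
  rw [mapClusterPt_iff_frequently] at hz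
  have h1 := hz _ ((OnePoint.isOpenEmbedding_coe.isOpenMap _ hO).mem_nhds ⟨z, hzO, rfl⟩)
  rw [frequently_atTop] at h1
  obtain ⟨n, hn, hn2⟩ := h1 1
  exact ⟨n, hn, hn2⟩

namespace IsRational

variable {p q : ℂ[X]} {f : Sph → Sph} (h : IsRational p q f)
  (hd : 1 ≤ max p.natDegree q.natDegree)

include h hd

/-- The forward orbit of a disc has full measure, if the Julia set is the sphere. -/
theorem null_omit (hJ : Fatou f = ∅) {c : ℂ} {r : ℝ} (hr : 0 < r) :
    Null (⋃ n : ℕ, f^[n] '' (((↑) : ℂ → Sph) '' closedBall c r))ᶜ := by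
  by_contra hcon
  set E : Set ℂ := ((↑) : ℂ → Sph) ⁻¹' (⋃ n : ℕ, f^[n] '' (((↑) : ℂ → Sph) '' closedBall c r))ᶜ
    with hE
  have hEm : MeasurableSet E := by
    rw [hE, preimage_compl, preimage_iUnion]
    refine (MeasurableSet.iUnion fun n => ?_).compl
    have h1 : IsCompact (f^[n] '' (((↑) : ℂ → Sph) '' closedBall c r)) :=
      ((isCompact_closedBall c r).image OnePoint.continuous_coe).image (h.iter_cont n)
    exact (h1.isClosed.preimage OnePoint.continuous_coe).measurableSet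
  have hpos : 0 < volume E := pos_iff_ne_zero.2 hcon
  obtain ⟨S, hSE, hS, hSpos⟩ := hEm.exists_lt_isCompact hpos
  have hom : ∀ z ∈ ball c r, ∀ n, f^[n] (z : Sph) ∉ ((↑) : ℂ → Sph) '' S := by
    rintro z hz n ⟨y, hy, hyz⟩
    have h1 := hSE hy
    refine h1 (mem_iUnion.2 ⟨n, (z : Sph), ⟨z, ball_subset_closedBall hz, rfl⟩, hyz.symm⟩)
  have h2 : ((c : ℂ) : Sph) ∈ Fatou f := by
    refine ⟨((↑) : ℂ → Sph) '' ball c r, ?_, ?_⟩
    · exact (OnePoint.isOpenEmbedding_coe.isOpenMap _ isOpen_ball).mem_nhds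
        ⟨c, mem_ball_self hr, rfl⟩
    · rintro _ ⟨w, hw, rfl⟩
      exact h.equi_of_omit hd isOpen_ball hS hSpos.ne' hom hw
  rw [hJ] at h2
  exact h2

/-- Closed forward invariant sets, not the sphere, have area zero. -/
theorem null_of_invariant (hJ : Fatou f = ∅) (hC : OpenRec f) {N : Set Sph}
    (hN : IsClosed N) (hne : N ≠ univ) (hmaps : MapsTo f N N) : Null N := by
  have hNn : ∀ n, MapsTo f^[n] N N := fun n => hmaps.iterate n
  -- a disc in the complement
  obtain ⟨x, hx⟩ := (ne_univ_iff_exists_notMem N).1 hne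
  have hO : IsOpen (((↑) : ℂ → Sph) ⁻¹' Nᶜ) := hN.isOpen_compl.preimage OnePoint.continuous_coe
  obtain ⟨c, hc⟩ : ∃ c : ℂ, (c : Sph) ∈ Nᶜ := by
    obtain ⟨y, hy, c, hc⟩ := (OnePoint.denseRange_coe (X := ℂ)).inter_open_nonempty _
      hN.isOpen_compl ⟨x, hx⟩
    exact ⟨c, by rw [hc]; exact hy⟩
  obtain ⟨ε, hε, hball⟩ := Metric.isOpen_iff.1 hO c hc
  set r : ℝ := ε / 2 with hr
  have hr0 : 0 < r := by positivity
  have hsub : closedBall c r ⊆ ((↑) : ℂ → Sph) ⁻¹' Nᶜ :=
    (closedBall_subset_ball (by linarith)).trans hball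
  -- `D` is null
  have hD : Null (Nᶜ ∩ f ⁻¹' N) := by
    have h1 := hC _ hO
    have h2 : ∀ᵐ z : ℂ, ¬ ((z : Sph) ∈ Nᶜ ∩ f ⁻¹' N) := by
      filter_upwards [h1] with z hz hz2
      obtain ⟨n, hn, y, hy, hyz⟩ := hz hz2.1
      obtain ⟨m, rfl⟩ : ∃ m, n = m + 1 := ⟨n - 1, by omega⟩
      have h3 : f^[m + 1] (z : Sph) ∈ N := by
        rw [Function.iterate_succ_apply]
        exact hNn m hz2.2
      rw [← hyz] at h3
      exact hy h3
    rw [ae_iff] at h2
    simp only [not_not] at h2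
    exact h2
  have hDn : ∀ n, Null (Nᶜ ∩ f^[n] ⁻¹' N) := by
    intro n
    induction n with
    | zero =>
      refine Null.mono (Null.countable (countable_empty)) ?_
      rintro y ⟨h1, h2⟩
      exact h1 h2
    | succ n ih =>
      refine Null.mono (ih.union (h.null_preim_iter hd hD n)) ?_
      rintro y ⟨h1, h2⟩
      by_cases h3 : f^[n] y ∈ N
      · exact Or.inl ⟨h1, h3⟩
      · refine Or.inr ⟨h3, ?_⟩
        show f (f^[n] y) ∈ N
        rw [← Function.iterate_succ_apply' f n]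
        exact h2
  have hfin : Null (⋃ n : ℕ, f^[n] '' (Nᶜ ∩ f^[n] ⁻¹' N)) :=
    Null.iUnion fun n => h.null_image_iter (hDn n) n
  refine ((h.null_omit hd hJ (c := c) hr0).union hfin).mono fun y hy => ?_
  by_cases h1 : y ∈ ⋃ n : ℕ, f^[n] '' (((↑) : ℂ → Sph) '' closedBall c r)
  · obtain ⟨n, x', ⟨z, hz, rfl⟩, rfl⟩ := mem_iUnion.1 h1
    exact Or.inr (mem_iUnion.2 ⟨n, (z : Sph), ⟨hsub hz, hy⟩, rfl⟩)
  · exact Or.inl h1

/-- The `ω`-limit set of almost every point is the sphere. -/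
theorem ae_omega (hC : ∀ N : Set Sph, IsClosed N → N ≠ univ → MapsTo f N N → Null N) :
    ∀ᵐ z : ℂ, ∀ y : Sph, MapClusterPt y atTop fun n : ℕ => f^[n] (z : Sph) := by
  obtain ⟨B, hBc, hBne, hB⟩ := TopologicalSpace.exists_countable_basis ℂ
  have h1 : ∀ b ∈ B, ∀ m : ℕ, ∀ᵐ z : ℂ, ∃ n : ℕ, f^[n + m] (z : Sph) ∈ ((↑) : ℂ → Sph) '' b := by
    intro b hb m
    have hbo : IsOpen (((↑) : ℂ → Sph) '' b) :=
      OnePoint.isOpenEmbedding_coe.isOpenMap _ (hB.isOpen hb)
    have hbne : b.Nonempty := nonempty_iff_ne_empty.2 fun e => hBne (e ▸ hb)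
    obtain ⟨c, hc⟩ := hbne
    have h2 : Null {y : Sph | ∀ n : ℕ, f^[n] y ∉ ((↑) : ℂ → Sph) '' b} := by
      refine hC _ ?_ ?_ ?_
      · have : {y : Sph | ∀ n : ℕ, f^[n] y ∉ ((↑) : ℂ → Sph) '' b} =
            ⋂ n : ℕ, f^[n] ⁻¹' (((↑) : ℂ → Sph) '' b)ᶜ := by
          ext y
          simp
        rw [this]
        exact isClosed_iInter fun n => (hbo.isClosed_compl).preimage (h.iter_cont n)
      · intro e
        have : (c : Sph) ∈ {y : Sph | ∀ n : ℕ, f^[n] y ∉ ((↑) : ℂ → Sph) '' b} := by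
          rw [e]; exact mem_univ _
        exact this 0 ⟨c, hc, rfl⟩
      · intro y hy n
        have := hy (n + 1)
        rwa [Function.iterate_succ_apply] at this
    have h3 : volume {z : ℂ | ¬ ∃ n : ℕ, f^[n + m] (z : Sph) ∈ ((↑) : ℂ → Sph) '' b} = 0 := by
      refine measure_mono_null ?_ (h.null_preim_iter hd h2 m)
      intro z hz n hn
      refine hz ⟨n, ?_⟩
      rw [Function.iterate_add_apply]
      exact hn
    rw [ae_iff]
    exact h3
  have h2 := (ae_ball_iff hBc).2 fun b hb => ae_all_iff.2 (h1 b hb)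
  filter_upwards [h2] with z hz y
  rw [mapClusterPt_iff_frequently]
  intro U hU
  rw [frequently_atTop]
  intro m
  obtain ⟨U', hU'U, hU'o, hyU'⟩ := _root_.mem_nhds_iff.1 hU
  obtain ⟨y', hy', c, hc⟩ := (OnePoint.denseRange_coe (X := ℂ)).inter_open_nonempty U' hU'o
    ⟨y, hyU'⟩
  have h3 : IsOpen (((↑) : ℂ → Sph) ⁻¹' U') := hU'o.preimage OnePoint.continuous_coe
  have h4 : c ∈ ((↑) : ℂ → Sph) ⁻¹' U' := by
    show (c : Sph) ∈ U'
    rw [hc]; exact hy'
  obtain ⟨b, hb, hcb, hbU⟩ := hB.exists_subset_of_mem_open h4 h3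
  obtain ⟨n, w, hw, hwn⟩ := hz b hb m
  exact ⟨n + m, by omega, by rw [← hwn]; exact hU'U (hbU hw)⟩

end IsRational

end Pool.Agent.RCV
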