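import Mathlib

/-!
# RCV/Defs : rational maps of the sphere, Fatou set, conservativity
-/

set_option autoImplicit false

open Filter Topology MeasureTheory Set

namespace Pool.Agent.RCV

/-- the Riemann sphere -/
abbrev Sph : Type := OnePoint ℂ

/-- `f = p / q` in lowest terms: a rational map of degree `max (deg p) (deg q)` -/
structure IsRational (p q : Polynomial ℂ) (f : Sph → Sph) : Prop where
  coprime : IsCoprime p q
  ne_zero : q ≠ 0
  cont : Continuous f
  eq : ∀ z : ℂ, q.eval z ≠ 0 → f (z : Sph) = ((p.eval z / q.eval z : ℂ) : Sph)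

/-- the iterates of `f` are equicontinuous at `w` -/
def Equi (f : Sph → Sph) (w : Sph) : Prop :=
  ∀ W ∈ 𝓝ˢ (diagonal Sph), ∀ᶠ x in 𝓝 w, ∀ n : ℕ, (f^[n] w, f^[n] x) ∈ W

/-- the Fatou set -/
def Fatou (f : Sph → Sph) : Set Sph := {z | ∃ V ∈ 𝓝 z, ∀ w ∈ V, Equi f w}

/-- Poincaré recurrence for the Lebesgue measure -/
def Conservative (f : Sph → Sph) : Prop :=
  ∀ E : Set ℂ, MeasurableSet E → ∀ᵐ z ∂(volume : Measure ℂ), z ∈ E →
    ∃ n : ℕ, 1 ≤ n ∧ f^[n] (z : Sph) ∈ ((↑) : ℂ → Sph) '' E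

/-- `A` has area zero -/
def Null (A : Set Sph) : Prop := volume ((↑) ⁻¹' A : Set ℂ) = 0

/-- the complex number `x`, for `x ≠ ∞` -/
def val (x : Sph) : ℂ := x.elim 0 id

end Pool.Agent.RCV
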