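import Pool.Agent.RCV.Defs

/-!
# RCV/Rat : rational maps, null sets, iterates
-/

set_option autoImplicit false

open Filter Topology MeasureTheory Set Polynomial

namespace Pool.Agent.RCV

@[simp] theorem val_coe (z : ℂ) : val (z : Sph) = z := rfl

theorem coe_val {x : Sph} (h : x ≠ OnePoint.infty) : (val x : Sph) = x := by
  induction x using OnePoint.rec with
  | infty => exact absurd rfl h
  | coe z => rfl

theorem Null.mono {A B : Set Sph} (hB : Null B) (h : A ⊆ B) : Null A :=
  measure_mono_null (preimage_mono h) hB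

theorem Null.union {A B : Set Sph} (hA : Null A) (hB : Null B) : Null (A ∪ B) := by
  unfold Null at *
  rw [preimage_union]
  exact measure_union_null hA hB

theorem Null.iUnion {ι : Type*} [Countable ι] {A : ι → Set Sph} (h : ∀ i, Null (A i)) :
    Null (⋃ i, A i) := by
  unfold Null at *
  rw [preimage_iUnion]
  exact measure_iUnion_null h

theorem Null.countable {A : Set Sph} (h : A.Countable) : Null A :=
  (h.preimage OnePoint.coe_injective).measure_zero _

namespace IsRational

variable {p q : ℂ[X]} {f : Sph → Sph} (h : IsRational p q f)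

include h

theorem ne_of_zero {z : ℂ} (hz : q.eval z = 0) : p.eval z ≠ 0 := by
  intro hp
  obtain ⟨a, b, hab⟩ := h.coprime
  have := congrArg (eval z) hab
  rw [eval_add, eval_mul, eval_mul, hp, hz, mul_zero, mul_zero, add_zero, eval_one] at this
  exact zero_ne_one this

theorem pole {z : ℂ} (hz : q.eval z = 0) : f (z : Sph) = OnePoint.infty := by
  have hp := h.ne_of_zero hz
  have hfin : {x : ℂ | q.eval x = 0}.Finite := by
    refine (q.roots.toFinset.finite_toSet).subset fun x hx => ?_
    rw [Finset.mem_coe, Multiset.mem_toFinset, mem_roots h.ne_zero]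
    exact hx
  have hne : ∀ᶠ x in 𝓝[≠] z, q.eval x ≠ 0 := by
    have h1 : ∀ᶠ x in 𝓝[≠] z, x ∉ {x : ℂ | q.eval x = 0} \ {z} := by
      have h2 : IsOpen ({x : ℂ | q.eval x = 0} \ {z})ᶜ :=
        ((hfin.subset diff_subset).isClosed).isOpen_compl
      exact mem_nhdsWithin_of_mem_nhds (h2.mem_nhds (by simp))
    filter_upwards [h1, self_mem_nhdsWithin] with x hx hxz h0
    exact hx ⟨h0, hxz⟩
  have h3 : Tendsto (fun x : ℂ => q.eval x / p.eval x) (𝓝[≠] z) (𝓝[≠] 0) := by
    rw [tendsto_nhdsWithin_iff]
    constructor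
    · have h4 : ContinuousAt (fun x : ℂ => q.eval x / p.eval x) z :=
        q.continuous.continuousAt.div p.continuous.continuousAt hp
      have h5 : Tendsto (fun x : ℂ => q.eval x / p.eval x) (𝓝 z) (𝓝 0) := by
        have := h4.tendsto
        rwa [hz, zero_div] at this
      exact h5.mono_left nhdsWithin_le_nhds
    · have h6 : ∀ᶠ x in 𝓝[≠] z, p.eval x ≠ 0 :=
        mem_nhdsWithin_of_mem_nhds (p.continuous.continuousAt.eventually_ne hp)
      filter_upwards [hne, h6] with x h7 h8
      exact div_ne_zero h7 h8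
  have h9 : Tendsto (fun x : ℂ => ((p.eval x / q.eval x : ℂ) : Sph)) (𝓝[≠] z)
      (𝓝 OnePoint.infty) := by
    have h10 : Tendsto (fun x : ℂ => (q.eval x / p.eval x)⁻¹) (𝓝[≠] z) (Bornology.cobounded ℂ) :=
      tendsto_inv₀_nhdsNE_zero.comp h3
    have h11 : Tendsto (fun x : ℂ => p.eval x / q.eval x) (𝓝[≠] z) (coclosedCompact ℂ) := by
      rw [coclosedCompact_eq_cocompact, ← Metric.cobounded_eq_cocompact]
      refine h10.congr fun x => ?_
      rw [inv_div]
    exact OnePoint.tendsto_coe_infty.comp h11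
  have h12 : Tendsto (fun x : ℂ => f (x : Sph)) (𝓝[≠] z) (𝓝 (f (z : Sph))) := by
    have : Continuous fun x : ℂ => f (x : Sph) := h.cont.comp OnePoint.continuous_coe
    exact (this.tendsto z).mono_left nhdsWithin_le_nhds
  have h13 : Tendsto (fun x : ℂ => f (x : Sph)) (𝓝[≠] z) (𝓝 OnePoint.infty) := by
    refine h9.congr' ?_
    filter_upwards [hne] with x hx
    exact (h.eq x hx).symm
  exact tendsto_nhds_unique h12 h13

theorem ne_infty_iff {z : ℂ} : f (z : Sph) ≠ OnePoint.infty ↔ q.eval z ≠ 0 := by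
  constructor
  · intro h1 h2
    exact h1 (h.pole h2)
  · intro h1
    rw [h.eq z h1]
    exact OnePoint.coe_ne_infty _

variable (hd : 1 ≤ max p.natDegree q.natDegree)

include hd

theorem sub_ne (w : ℂ) : p - C w * q ≠ 0 := by
  intro h0
  have h1 : p = C w * q := sub_eq_zero.1 h0
  have h2 : IsUnit q := by
    have : q ∣ p := ⟨C w, by rw [h1, mul_comm]⟩
    exact h.coprime.symm.isUnit_of_dvd' dvd_rfl this
  have h3 : q.natDegree = 0 := natDegree_eq_zero_of_isUnit h2
  have h4 : p.natDegree = 0 := by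
    have := natDegree_C_mul_le w q
    rw [h1]
    omega
  rw [h3, h4] at hd
  simp at hd

theorem wronsk_ne : derivative p * q - p * derivative q ≠ 0 := by
  intro h0
  have h1 : derivative p * q = p * derivative q := sub_eq_zero.1 h0
  have h2 : q ∣ derivative q := by
    refine h.coprime.symm.dvd_of_dvd_mul_left ⟨derivative p, ?_⟩
    rw [mul_comm q, ← h1]
  have h3 : derivative q = 0 := by
    by_contra hne
    have h4 := natDegree_le_of_dvd h2 hne
    rcases Nat.eq_zero_or_pos q.natDegree with h5 | h5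
    · rw [eq_C_of_natDegree_eq_zero h5, derivative_C] at hne
      exact hne rfl
    · have := natDegree_derivative_lt h5.ne'
      omega
  have h4 : derivative p = 0 := by
    rw [h3, mul_zero] at h1
    exact (mul_eq_zero.1 h1).resolve_right h.ne_zero
  have h5 := natDegree_eq_zero_of_derivative_eq_zero h3
  have h6 := natDegree_eq_zero_of_derivative_eq_zero h4
  rw [h5, h6] at hd
  simp at hd

omit h hd in
theorem finite_zero {r : ℂ[X]} (hr : r ≠ 0) : {x : ℂ | r.eval x = 0}.Finite := by
  refine (r.roots.toFinset.finite_toSet).subset fun x hx => ?_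
  rw [Finset.mem_coe, Multiset.mem_toFinset, mem_roots hr]
  exact hx

omit h hd in
theorem hasStrict {z : ℂ} (hz : q.eval z ≠ 0) :
    HasStrictDerivAt (fun x : ℂ => p.eval x / q.eval x)
      ((derivative p * q - p * derivative q).eval z / q.eval z ^ 2) z := by
  have h1 := (p.hasStrictDerivAt z).div (q.hasStrictDerivAt z) hz
  rw [eval_sub, eval_mul, eval_mul]
  exact h1

omit h hd in
/-- preimages of null sets under a function with non-zero derivative -/
theorem null_preimage {F : ℂ → ℂ} {F' : ℂ → ℂ} {Z : Set ℂ} (hZ : IsOpen Z)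
    (hF : ∀ z ∈ Z, HasStrictDerivAt F (F' z) z) (h0 : ∀ z ∈ Z, F' z ≠ 0) {B : Set ℂ}
    (hB : volume B = 0) : volume (Z ∩ F ⁻¹' B) = 0 := by
  refine measure_null_of_locally_null _ fun z hz => ?_
  obtain ⟨hz1, hz2⟩ := hz
  have hs := hF z hz1
  set e := (hs.hasStrictFDerivAt_equiv (h0 z hz1)).toOpenPartialHomeomorph F with he
  have hcoe : (e : ℂ → ℂ) = F := HasStrictFDerivAt.toOpenPartialHomeomorph_coe _
  have hzs : z ∈ e.source := HasStrictFDerivAt.mem_toOpenPartialHomeomorph_source _
  refine ⟨(Z ∩ e.source) ∩ (Z ∩ F ⁻¹' B), ?_, ?_⟩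
  · exact inter_mem (mem_nhdsWithin_of_mem_nhds ((hZ.inter e.open_source).mem_nhds ⟨hz1, hzs⟩))
      self_mem_nhdsWithin
  · have hsub : (Z ∩ e.source) ∩ (Z ∩ F ⁻¹' B) ⊆ e.symm '' (B ∩ e.target ∩ e.symm ⁻¹' Z) := by
      rintro x ⟨⟨hx1, hx2⟩, -, hx3⟩
      refine ⟨F x, ⟨⟨hx3, ?_⟩, ?_⟩, ?_⟩
      · rw [← hcoe]; exact e.map_source hx2
      · show e.symm (F x) ∈ Z
        rw [← hcoe, e.left_inv hx2]; exact hx1
      · rw [← hcoe, e.left_inv hx2]
    refine measure_mono_null hsub ?_
    refine addHaar_image_eq_zero_of_differentiableOn_of_addHaar_eq_zero volume ?_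
      (measure_mono_null (fun x hx => hx.1.1) hB)
    rintro y ⟨⟨hy1, hy2⟩, hy3⟩
    have h1 : HasDerivAt e (F' (e.symm y)) (e.symm y) := by
      rw [hcoe]
      exact (hF _ hy3).hasDerivAt
    have h2 := e.hasDerivAt_symm hy2 (h0 _ hy3) h1
    exact (h2.differentiableAt.restrictScalars ℝ).differentiableWithinAt

/-- rational maps are non-singular -/
theorem null_preim {A : Set Sph} (hA : Null A) : Null (f ⁻¹' A) := by
  set w := derivative p * q - p * derivative q with hw
  have hw0 : w ≠ 0 := h.wronsk_ne hd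
  set Z : Set ℂ := {z | q.eval z ≠ 0 ∧ w.eval z ≠ 0} with hZdef
  have hZ : IsOpen Z := by
    refine IsOpen.inter ?_ ?_
    · exact isOpen_compl_singleton.preimage q.continuous
    · exact isOpen_compl_singleton.preimage w.continuous
  have h1 : volume (Z ∩ (fun x : ℂ => p.eval x / q.eval x) ⁻¹' ((↑) ⁻¹' A : Set ℂ)) = 0 := by
    refine null_preimage (F' := fun z => w.eval z / q.eval z ^ 2) hZ
      (fun z hz => hasStrict hz.1) (fun z hz => ?_) hA
    exact div_ne_zero hz.2 (pow_ne_zero _ hz.1)
  have h2 : ((↑) ⁻¹' (f ⁻¹' A) : Set ℂ) ⊆ ({z : ℂ | q.eval z = 0} ∪ {z : ℂ | w.eval z = 0}) ∪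
      (Z ∩ (fun x : ℂ => p.eval x / q.eval x) ⁻¹' ((↑) ⁻¹' A : Set ℂ)) := by
    intro z hz
    by_cases h3 : q.eval z = 0
    · exact Or.inl (Or.inl h3)
    by_cases h4 : w.eval z = 0
    · exact Or.inl (Or.inr h4)
    · refine Or.inr ⟨⟨h3, h4⟩, ?_⟩
      have h5 : f (z : Sph) ∈ A := hz
      rw [h.eq z h3] at h5
      exact h5
  exact measure_mono_null h2 (measure_union_null (measure_union_null
    ((finite_zero h.ne_zero).measure_zero _) ((finite_zero hw0).measure_zero _)) h1)

omit hd in
/-- rational maps map null sets to null sets -/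
theorem null_image {A : Set Sph} (hA : Null A) : Null (f '' A) := by
  set D : Set ℂ := {z | q.eval z ≠ 0} with hD
  have h1 : volume ((fun x : ℂ => p.eval x / q.eval x) '' (D ∩ ((↑) ⁻¹' A : Set ℂ))) = 0 := by
    refine addHaar_image_eq_zero_of_differentiableOn_of_addHaar_eq_zero volume ?_
      (measure_mono_null inter_subset_right hA)
    intro z hz
    exact ((hasStrict (p := p) hz.1).hasDerivAt.differentiableAt.restrictScalars
      ℝ).differentiableWithinAt
  have h2 : f '' A ⊆ ({f OnePoint.infty} ∪ {OnePoint.infty}) ∪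
      (fun z : ℂ => (z : Sph)) '' ((fun x : ℂ => p.eval x / q.eval x) ''
        (D ∩ ((↑) ⁻¹' A : Set ℂ))) := by
    rintro _ ⟨x, hx, rfl⟩
    induction x using OnePoint.rec with
    | infty => exact Or.inl (Or.inl rfl)
    | coe z =>
      by_cases h3 : q.eval z = 0
      · exact Or.inl (Or.inr (h.pole h3))
      · exact Or.inr ⟨_, ⟨z, ⟨h3, hx⟩, rfl⟩, (h.eq z h3).symm⟩
  have h3 : Null ({f OnePoint.infty} ∪ {OnePoint.infty} : Set Sph) :=
    Null.countable (((finite_singleton _).union (finite_singleton _)).countable)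
  refine (h3.union ?_).mono h2
  unfold Null
  rw [preimage_image_eq _ OnePoint.coe_injective]
  exact h1

theorem null_preim_iter {A : Set Sph} (hA : Null A) (n : ℕ) : Null (f^[n] ⁻¹' A) := by
  induction n with
  | zero => exact hA
  | succ n ih =>
    have e : f^[n + 1] ⁻¹' A = f ⁻¹' (f^[n] ⁻¹' A) := by
      rw [Function.iterate_succ, preimage_comp]
    rw [e]
    exact h.null_preim hd ih

omit hd in
theorem null_image_iter {A : Set Sph} (hA : Null A) (n : ℕ) : Null (f^[n] '' A) := by
  induction n with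
  | zero => simpa using hA
  | succ n ih =>
    have e : f^[n + 1] '' A = f '' (f^[n] '' A) := by
      rw [Function.iterate_succ', image_comp]
    rw [e]
    exact h.null_image ih

theorem countable_infty (n : ℕ) : {z : ℂ | f^[n] (z : Sph) = OnePoint.infty}.Countable := by
  induction n with
  | zero =>
    have : {z : ℂ | f^[0] (z : Sph) = OnePoint.infty} = ∅ := by
      ext z
      simp
    rw [this]
    exact countable_empty
  | succ n ih =>
    have h1 : {z : ℂ | f^[n + 1] (z : Sph) = OnePoint.infty} ⊆ {z : ℂ | q.eval z = 0} ∪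
        ⋃ w ∈ {z : ℂ | f^[n] (z : Sph) = OnePoint.infty}, {z : ℂ | (p - C w * q).eval z = 0} := by
      intro z hz
      by_cases h2 : q.eval z = 0
      · exact Or.inl h2
      · right
        have h3 : f^[n] (f (z : Sph)) = OnePoint.infty := hz
        rw [h.eq z h2] at h3
        simp only [mem_iUnion]
        refine ⟨p.eval z / q.eval z, h3, ?_⟩
        show (p - C (p.eval z / q.eval z) * q).eval z = 0
        rw [eval_sub, eval_mul, eval_C, div_mul_cancel₀ _ h2, sub_self]
    refine Countable.mono h1 ((finite_zero h.ne_zero).countable.union ?_)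
    exact ih.biUnion fun w _ => (finite_zero (h.sub_ne hd w)).countable

omit hd in
theorem iter_cont (n : ℕ) : Continuous f^[n] := h.cont.iterate n

omit hd in
/-- the iterates are holomorphic off the preimages of `∞` -/
theorem iter_diff {z : ℂ} (n : ℕ) (hz : ∀ k ≤ n, f^[k] (z : Sph) ≠ OnePoint.infty) :
    DifferentiableAt ℂ (fun x : ℂ => val (f^[n] (x : Sph))) z := by
  induction n with
  | zero => exact differentiableAt_id
  | succ n ih =>
    have ih' := ih fun k hk => hz k (by omega)
    have hzn := hz n (by omega)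
    set w := val (f^[n] (z : Sph)) with hw
    have hwc : (w : Sph) = f^[n] (z : Sph) := coe_val hzn
    have h1 : f (w : Sph) ≠ OnePoint.infty := by
      rw [hwc, ← Function.iterate_succ_apply' f n]
      exact hz (n + 1) le_rfl
    have h2 : q.eval w ≠ 0 := h.ne_infty_iff.1 h1
    have h3 : DifferentiableAt ℂ (fun x : ℂ => p.eval x / q.eval x) w :=
      (hasStrict h2).hasDerivAt.differentiableAt
    have h4 : DifferentiableAt ℂ
        (fun x : ℂ => p.eval (val (f^[n] (x : Sph))) / q.eval (val (f^[n] (x : Sph)))) z := by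
      exact DifferentiableAt.comp (g := fun x : ℂ => p.eval x / q.eval x) z h3 ih'
    refine h4.congr_of_eventuallyEq ?_
    have hc : Continuous fun x : ℂ => f^[n] (x : Sph) :=
      (h.iter_cont n).comp OnePoint.continuous_coe
    have h5 : ∀ᶠ x : ℂ in 𝓝 z, f^[n] (x : Sph) ≠ OnePoint.infty :=
      hc.continuousAt.eventually_ne hzn
    have h6 : ∀ᶠ x : ℂ in 𝓝 z, q.eval (val (f^[n] (x : Sph))) ≠ 0 :=
      (q.continuous.continuousAt.comp ih'.continuousAt).eventually_ne h2
    filter_upwards [h5, h6] with x h7 h8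
    show val (f^[n + 1] (x : Sph)) = _
    rw [Function.iterate_succ_apply']
    conv_lhs => rw [← coe_val h7]
    rw [h.eq _ h8, val_coe]

omit hd in
/-- strict derivative of the iterates -/
theorem iter_strict {z : ℂ} (n : ℕ) (hz : ∀ k ≤ n, f^[k] (z : Sph) ≠ OnePoint.infty) :
    HasStrictDerivAt (fun x : ℂ => val (f^[n] (x : Sph)))
      (deriv (fun x : ℂ => val (f^[n] (x : Sph))) z) z := by
  have h1 : ∀ᶠ x : ℂ in 𝓝 z, ∀ k ∈ Finset.range (n + 1), f^[k] (x : Sph) ≠ OnePoint.infty := by
    rw [eventually_all_finset]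
    intro k hk
    have hc : Continuous fun x : ℂ => f^[k] (x : Sph) :=
      (h.iter_cont k).comp OnePoint.continuous_coe
    exact hc.continuousAt.eventually_ne (hz k (by rw [Finset.mem_range] at hk; omega))
  have h2 : DifferentiableOn ℂ (fun x : ℂ => val (f^[n] (x : Sph)))
      {x : ℂ | ∀ k ∈ Finset.range (n + 1), f^[k] (x : Sph) ≠ OnePoint.infty} := by
    intro x hx
    refine (h.iter_diff n fun k hk => hx k ?_).differentiableWithinAt
    rw [Finset.mem_range]; omega
  exact (h2.analyticAt h1).hasStrictDerivAt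

end IsRational

end Pool.Agent.RCV
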