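import Pool.Agent.RCV.FamD
import Pool.Agent.RCV.Rat

/-!
# RCV/Fam : the family `f_l (z) = l (z + 1 / z + 2)`
-/

set_option autoImplicit false

open Filter Topology MeasureTheory Set Polynomial Metric

namespace Pool.Agent.RCV

theorem fam_infty (l : ℂ) : fam l OnePoint.infty = OnePoint.infty := rfl

theorem fam_zero (l : ℂ) : fam l ((0 : ℂ) : Sph) = OnePoint.infty := by
  show (if (0 : ℂ) = 0 then _ else _) = _
  rw [if_pos rfl]

theorem fam_coe (l : ℂ) {z : ℂ} (hz : z ≠ 0) :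
    fam l (z : Sph) = ((l * (z + 1) ^ 2 / z : ℂ) : Sph) := by
  show (if z = 0 then _ else _) = _
  rw [if_neg hz]

theorem tendsto_infty {α : Type*} {F : Filter α} {g : α → ℂ}
    (h : Tendsto g F (Bornology.cobounded ℂ)) :
    Tendsto (fun x => (g x : Sph)) F (𝓝 OnePoint.infty) := by
  rw [Metric.cobounded_eq_cocompact, ← coclosedCompact_eq_cocompact] at h
  exact OnePoint.tendsto_coe_infty.comp h

theorem fam_cont {l : ℂ} (hl : l ≠ 0) : Continuous (fam l) := by
  rw [OnePoint.continuous_iff]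
  constructor
  · rw [fam_infty, coclosedCompact_eq_cocompact, ← Metric.cobounded_eq_cocompact]
    have h1 : Tendsto (fun z : ℂ => l * (z + 1) ^ 2 / z) (Bornology.cobounded ℂ)
        (Bornology.cobounded ℂ) := by
      rw [← tendsto_norm_atTop_iff_cobounded]
      have h2 : Tendsto (fun z : ℂ => ‖l‖ * (‖z‖ - 3)) (Bornology.cobounded ℂ) atTop := by
        refine Tendsto.const_mul_atTop (norm_pos_iff.2 hl) ?_
        exact tendsto_atTop_add_const_right _ (-3) tendsto_norm_cobounded_atTop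
      refine tendsto_atTop_mono' _ ?_ h2
      have h3 : ∀ᶠ z : ℂ in Bornology.cobounded ℂ, 1 ≤ ‖z‖ :=
        tendsto_norm_cobounded_atTop.eventually (eventually_ge_atTop 1)
      filter_upwards [h3] with z hz
      rw [norm_div, norm_mul, norm_pow, mul_div_assoc]
      refine mul_le_mul_of_nonneg_left ?_ (norm_nonneg _)
      rw [le_div_iff₀ (by linarith)]
      have h4 : ‖z‖ - 1 ≤ ‖z + 1‖ := by
        have := norm_sub_norm_le z (-1)
        rwa [norm_neg, norm_one, sub_neg_eq_add] at this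
      have h5 : 0 ≤ ‖z‖ - 1 := by linarith
      nlinarith
    refine (tendsto_infty h1).congr' ?_
    have h3 : ∀ᶠ z : ℂ in Bornology.cobounded ℂ, 1 ≤ ‖z‖ :=
      tendsto_norm_cobounded_atTop.eventually (eventually_ge_atTop 1)
    filter_upwards [h3] with z hz
    rw [fam_coe]
    intro h0
    rw [h0, norm_zero] at hz
    linarith
  · rw [continuous_iff_continuousAt]
    intro z
    by_cases hz : z = 0
    · subst hz
      rw [continuousAt_iff_punctured_nhds, fam_zero]
      have h1 : Tendsto (fun x : ℂ => x / (l * (x + 1) ^ 2)) (𝓝[≠] 0) (𝓝[≠] 0) := by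
        rw [tendsto_nhdsWithin_iff]
        constructor
        · have h2 : ContinuousAt (fun x : ℂ => x / (l * (x + 1) ^ 2)) 0 := by
            refine ContinuousAt.div (by fun_prop) (by fun_prop) ?_
            simpa using hl
          have h3 := h2.tendsto
          rw [zero_div] at h3
          exact h3.mono_left nhdsWithin_le_nhds
        · have h4 : ∀ᶠ x : ℂ in 𝓝[≠] 0, l * (x + 1) ^ 2 ≠ 0 := by
            refine mem_nhdsWithin_of_mem_nhds ?_
            have h5 : ContinuousAt (fun x : ℂ => l * (x + 1) ^ 2) 0 := by fun_prop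
            exact h5.eventually_ne (by simpa using hl)
          filter_upwards [h4, self_mem_nhdsWithin] with x h5 h6
          exact div_ne_zero h6 h5
      have h2 : Tendsto (fun x : ℂ => l * (x + 1) ^ 2 / x) (𝓝[≠] 0) (Bornology.cobounded ℂ) := by
        refine (tendsto_inv₀_nhdsNE_zero.comp h1).congr fun x => ?_
        show (x / (l * (x + 1) ^ 2))⁻¹ = _
        rw [inv_div]
      refine (tendsto_infty h2).congr' ?_
      filter_upwards [self_mem_nhdsWithin] with x hx
      rw [fam_coe l hx]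
    · have h1 : ContinuousAt (fun x : ℂ => ((l * (x + 1) ^ 2 / x : ℂ) : Sph)) z := by
        refine OnePoint.continuous_coe.continuousAt.comp ?_
        exact ContinuousAt.div (by fun_prop) (by fun_prop) hz
      refine h1.congr ?_
      filter_upwards [continuousAt_id.eventually_ne hz] with x hx
      exact (fam_coe l hx).symm

/-- the numerator -/
noncomputable def num (l : ℂ) : ℂ[X] := C l * (X + 1) ^ 2

theorem num_natDegree {l : ℂ} (hl : l ≠ 0) : (num l).natDegree = 2 := by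
  have h1 : (X + 1 : ℂ[X]).natDegree = 1 := by
    have := natDegree_X_add_C (1 : ℂ)
    rwa [map_one] at this
  rw [num, natDegree_C_mul hl, natDegree_pow, h1]

theorem fam_degree {l : ℂ} (hl : l ≠ 0) : max (num l).natDegree (X : ℂ[X]).natDegree = 2 := by
  rw [num_natDegree hl, natDegree_X]
  rfl

theorem fam_rational {l : ℂ} (hl : l ≠ 0) : IsRational (num l) X (fam l) where
  coprime := by
    refine ⟨C l⁻¹, -(X + 2), ?_⟩
    have h1 : C l⁻¹ * C l = (1 : ℂ[X]) := by rw [← C_mul, inv_mul_cancel₀ hl, C_1]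
    rw [num]
    linear_combination (X + 1) ^ 2 * h1
  ne_zero := X_ne_zero
  cont := fam_cont hl
  eq := by
    intro z hz
    rw [eval_X] at hz
    rw [fam_coe l hz, num, eval_X]
    simp

theorem fam_inj {l : ℂ} (hl : l ≠ 0) {x y : ℂ} (hx : x ≠ 0) (hy : y ≠ 0)
    (h : fam l (x : Sph) = fam l (y : Sph)) : x = y ∨ x * y = 1 := by
  rw [fam_coe l hx, fam_coe l hy] at h
  have h1 := OnePoint.coe_injective h
  have h2 : l * ((x - y) * (x * y - 1)) = 0 := by
    rw [div_eq_div_iff hx hy] at h1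
    linear_combination h1
  rcases mul_eq_zero.1 ((mul_eq_zero.1 h2).resolve_left hl) with h3 | h3
  · exact Or.inl (sub_eq_zero.1 h3)
  · exact Or.inr (sub_eq_zero.1 h3)

/-- The critical points. -/
theorem crit_fam {l : ℂ} (hl : l ≠ 0) {z : Sph} (h : Crit (fam l) z) :
    z = ((1 : ℂ) : Sph) ∨ z = ((-1 : ℂ) : Sph) := by
  by_contra hcon
  push_neg at hcon
  obtain ⟨hc1, hc2⟩ := hcon
  induction z using OnePoint.rec with
  | infty =>
    have ho : IsOpen (((↑) : ℂ → Sph) '' closedBall 0 1)ᶜ :=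
      ((isCompact_closedBall (0 : ℂ) 1).image OnePoint.continuous_coe).isClosed.isOpen_compl
    have hm : (OnePoint.infty : Sph) ∈ (((↑) : ℂ → Sph) '' closedBall 0 1)ᶜ := by
      rintro ⟨z, -, hz⟩
      exact OnePoint.coe_ne_infty z hz
    refine h _ (ho.mem_nhds hm) ?_
    have key : ∀ x : ℂ, (x : Sph) ∈ (((↑) : ℂ → Sph) '' closedBall 0 1)ᶜ → 1 < ‖x‖ := by
      intro x hx
      by_contra h1
      refine hx ⟨x, ?_, rfl⟩
      rw [mem_closedBall, dist_zero_right]
      exact not_lt.1 h1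
    have hne : ∀ x : ℂ, 1 < ‖x‖ → x ≠ 0 := by
      intro x hx h0
      rw [h0, norm_zero] at hx
      linarith
    intro x hx y hy hxy
    induction x using OnePoint.rec with
    | infty =>
      induction y using OnePoint.rec with
      | infty => rfl
      | coe y =>
        have h1 := hne y (key y hy)
        rw [fam_infty, fam_coe l h1] at hxy
        exact absurd hxy.symm (OnePoint.coe_ne_infty _)
    | coe x =>
      have h1 := hne x (key x hx)
      induction y using OnePoint.rec with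
      | infty =>
        rw [fam_infty, fam_coe l h1] at hxy
        exact absurd hxy (OnePoint.coe_ne_infty _)
      | coe y =>
        have h2 := hne y (key y hy)
        rcases fam_inj hl h1 h2 hxy with h3 | h3
        · rw [h3]
        · have h4 := key x hx
          have h5 := key y hy
          have h6 : ‖x‖ * ‖y‖ = 1 := by rw [← norm_mul, h3, norm_one]
          nlinarith
  | coe z =>
    by_cases hz : z = 0
    · subst hz
      refine h _ ((OnePoint.isOpenEmbedding_coe.isOpenMap _ isOpen_ball).mem_nhds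
        ⟨0, mem_ball_self one_pos, rfl⟩) ?_
      rintro _ ⟨x, hx, rfl⟩ _ ⟨y, hy, rfl⟩ hxy
      rw [mem_ball, dist_zero_right] at hx hy
      by_cases hx0 : x = 0
      · by_cases hy0 : y = 0
        · rw [hx0, hy0]
        · rw [hx0, fam_zero, fam_coe l hy0] at hxy
          exact absurd hxy.symm (OnePoint.coe_ne_infty _)
      · by_cases hy0 : y = 0
        · rw [hy0, fam_zero, fam_coe l hx0] at hxy
          exact absurd hxy (OnePoint.coe_ne_infty _)
        · rcases fam_inj hl hx0 hy0 hxy with h3 | h3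
          · rw [h3]
          · have h6 : ‖x‖ * ‖y‖ = 1 := by rw [← norm_mul, h3, norm_one]
            nlinarith [norm_nonneg x, norm_nonneg y]
    · have hz2 : z * z ≠ 1 := by
        intro h1
        have h2 : (z - 1) * (z + 1) = 0 := by linear_combination h1
        rcases mul_eq_zero.1 h2 with h3 | h3
        · exact hc1 (by rw [sub_eq_zero.1 h3])
        · exact hc2 (by rw [eq_neg_of_add_eq_zero_left h3])
      have h1 : ∀ᶠ w : ℂ × ℂ in 𝓝 z ×ˢ 𝓝 z, w.1 * w.2 ≠ 1 := by
        have h2 : ContinuousAt (fun w : ℂ × ℂ => w.1 * w.2) (z, z) := by fun_prop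
        have h3 := h2.eventually_ne hz2
        rwa [nhds_prod_eq] at h3
      obtain ⟨V, hV, hV1⟩ := (eventually_prod_self_iff (r := fun x y : ℂ => x * y ≠ 1)).1 h1
      have h4 : V ∩ {0}ᶜ ∈ 𝓝 z := inter_mem hV (isOpen_compl_singleton.mem_nhds hz)
      refine h (((↑) : ℂ → Sph) '' (V ∩ {0}ᶜ)) ?_ ?_
      · rw [OnePoint.nhds_coe_eq]
        exact image_mem_map h4
      · rintro _ ⟨x, ⟨hx, hx0⟩, rfl⟩ _ ⟨y, ⟨hy, hy0⟩, rfl⟩ hxy
        rcases fam_inj hl hx0 hy0 hxy with h3 | h3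
        · rw [h3]
        · exact absurd h3 (hV1 x hx y hy)

/-- `-1` is a critical point. -/
theorem crit_neg_one (l : ℂ) : Crit (fam l) ((-1 : ℂ) : Sph) := by
  intro V hV hinj
  rw [OnePoint.nhds_coe_eq, mem_map] at hV
  have h1 : Tendsto (fun t : ℝ => -Complex.exp t) (𝓝[>] 0) (𝓝 (-1 : ℂ)) := by
    have h2 : Continuous fun t : ℝ => -Complex.exp t := by fun_prop
    have h3 := h2.tendsto 0
    simp only [Complex.ofReal_zero, Complex.exp_zero] at h3
    exact h3.mono_left nhdsWithin_le_nhds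
  have h2 : Tendsto (fun t : ℝ => -Complex.exp (-t)) (𝓝[>] 0) (𝓝 (-1 : ℂ)) := by
    have h2 : Continuous fun t : ℝ => -Complex.exp (-t) := by fun_prop
    have h3 := h2.tendsto 0
    simp only [Complex.ofReal_zero, neg_zero, Complex.exp_zero] at h3
    exact h3.mono_left nhdsWithin_le_nhds
  obtain ⟨t, ht1, ht2, ht⟩ := ((h1.eventually hV).and ((h2.eventually hV).and
    (self_mem_nhdsWithin : ∀ᶠ t : ℝ in 𝓝[>] 0, 0 < t))).exists
  have hx0 : -Complex.exp (t : ℂ) ≠ 0 := neg_ne_zero.2 (Complex.exp_ne_zero _)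
  have hy0 : -Complex.exp (-(t : ℂ)) ≠ 0 := neg_ne_zero.2 (Complex.exp_ne_zero _)
  have hxy : -Complex.exp (t : ℂ) * -Complex.exp (-(t : ℂ)) = 1 := by
    rw [neg_mul_neg, ← Complex.exp_add, add_neg_cancel, Complex.exp_zero]
  have h3 : fam l ((-Complex.exp (t : ℂ) : ℂ) : Sph) = fam l ((-Complex.exp (-(t : ℂ)) : ℂ) : Sph) := by
    rw [fam_coe l hx0, fam_coe l hy0]
    congr 1
    rw [div_eq_div_iff hx0 hy0]
    linear_combination (l * (-Complex.exp (t : ℂ) - -Complex.exp (-(t : ℂ)))) * hxy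
  have h4 := hinj ht1 ht2 h3
  have h5 := OnePoint.coe_injective h4
  rw [neg_inj] at h5
  have h6 : ‖Complex.exp (t : ℂ)‖ = ‖Complex.exp (-(t : ℂ))‖ := by rw [h5]
  rw [Complex.norm_exp, Complex.norm_exp] at h6
  simp only [Complex.ofReal_re, Complex.neg_re] at h6
  have h7 := Real.exp_injective h6
  linarith

theorem fam_neg_one (l : ℂ) : fam l ((-1 : ℂ) : Sph) = ((0 : ℂ) : Sph) := by
  rw [fam_coe l (by norm_num)]
  norm_num

theorem fam_iter_infty (l : ℂ) (n : ℕ) : (fam l)^[n] OnePoint.infty = OnePoint.infty :=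
  Function.iterate_fixed (fam_infty l) n

theorem fam_iter_neg_one (l : ℂ) (n : ℕ) : (fam l)^[n + 2] ((-1 : ℂ) : Sph) = OnePoint.infty := by
  rw [Function.iterate_add_apply]
  show (fam l)^[n] (fam l (fam l _)) = _
  rw [fam_neg_one, fam_zero, fam_iter_infty]

/-- `-1` is in the Julia set. -/
theorem neg_one_julia {l : ℂ} (hl : l ≠ 0) (hl1 : ‖l‖ < 1) :
    ((-1 : ℂ) : Sph) ∉ Fatou (fam l) := by
  rintro ⟨V, hV, hE⟩
  have hE1 := hE _ (mem_of_mem_nhds hV)
  have hlp : 0 < ‖l‖ := norm_pos_iff.2 hl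
  set κ : ℝ := (1 + ‖l‖) / 2 with hκ
  have hκ1 : κ < 1 := by rw [hκ]; linarith
  have hκ0 : 0 < κ := by rw [hκ]; linarith
  set R : ℝ := max 1 (6 * ‖l‖ / (1 - ‖l‖)) with hR
  have hR1 : 1 ≤ R := le_max_left _ _
  have hR2 : 6 * ‖l‖ ≤ R * (1 - ‖l‖) := by
    rw [← div_le_iff₀ (by linarith)]
    exact le_max_right _ _
  have hstep : ∀ z : ℂ, R < ‖z‖ → ‖l * (z + 1) ^ 2 / z‖ ≤ κ * ‖z‖ := by
    intro z hz
    have hz1 : 1 < ‖z‖ := lt_of_le_of_lt hR1 hz
    rw [norm_div, norm_mul, norm_pow, div_le_iff₀ (by linarith)]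
    have h1 : ‖z + 1‖ ≤ ‖z‖ + 1 := by
      have := norm_add_le z 1
      rwa [norm_one] at this
    have h2 : ‖z + 1‖ ^ 2 ≤ (‖z‖ + 1) ^ 2 := pow_le_pow_left₀ (norm_nonneg _) h1 2
    have h3 : (‖z‖ + 1) ^ 2 ≤ ‖z‖ * (‖z‖ + 3) := by nlinarith
    have h4 : ‖l‖ * (‖z‖ + 3) ≤ κ * ‖z‖ := by
      rw [hκ]
      nlinarith
    calc ‖l‖ * ‖z + 1‖ ^ 2 ≤ ‖l‖ * (‖z‖ * (‖z‖ + 3)) :=
          mul_le_mul_of_nonneg_left (h2.trans h3) hlp.le
      _ = ‖z‖ * (‖l‖ * (‖z‖ + 3)) := by ring
      _ ≤ ‖z‖ * (κ * ‖z‖) := mul_le_mul_of_nonneg_left h4 (by linarith)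
      _ = κ * ‖z‖ * ‖z‖ := by ring
  set NR : Set Sph := (((↑) : ℂ → Sph) '' closedBall 0 R)ᶜ with hNR
  have hNRo : IsOpen NR :=
    ((isCompact_closedBall (0 : ℂ) R).image OnePoint.continuous_coe).isClosed.isOpen_compl
  have hNRm : (OnePoint.infty : Sph) ∈ NR := by
    rintro ⟨z, -, hz⟩
    exact OnePoint.coe_ne_infty z hz
  have hNRk : ∀ z : ℂ, (z : Sph) ∈ NR → R < ‖z‖ := by
    intro z hz
    by_contra h1
    refine hz ⟨z, ?_, rfl⟩
    rw [mem_closedBall, dist_zero_right]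
    exact not_lt.1 h1
  set W : Set (Sph × Sph) := ({OnePoint.infty}ᶜ ×ˢ univ) ∪ (univ ×ˢ NR) with hW
  have hWo : IsOpen W := (isOpen_compl_singleton.prod isOpen_univ).union (isOpen_univ.prod hNRo)
  have hWd : diagonal Sph ⊆ W := by
    rintro ⟨a, b⟩ hab
    rw [mem_diagonal_iff] at hab
    simp only at hab
    subst hab
    by_cases ha : a = OnePoint.infty
    · right
      exact ⟨mem_univ _, by rw [ha]; exact hNRm⟩
    · left
      exact ⟨ha, mem_univ _⟩
  have h1 := hE1 W (hWo.mem_nhdsSet.2 hWd)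
  rw [OnePoint.nhds_coe_eq, eventually_map] at h1
  have h2 : ∀ᶠ x : ℂ in 𝓝[≠] (-1), x ≠ 0 := by
    refine mem_nhdsWithin_of_mem_nhds ?_
    exact continuousAt_id.eventually_ne (by norm_num)
  obtain ⟨x, hx1, hx2, hx3⟩ := ((h1.filter_mono nhdsWithin_le_nhds).and
    (h2.and (self_mem_nhdsWithin : ∀ᶠ x : ℂ in 𝓝[≠] (-1), x ≠ -1))).exists
  -- the orbit of `x` stays near `∞`
  have h3 : ∀ n, (fam l)^[n + 2] (x : Sph) ∈ NR := by
    intro n
    rcases hx1 (n + 2) with h4 | h4
    · exfalso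
      exact h4.1 (by rw [fam_iter_neg_one]; rfl)
    · exact h4.2
  set u : ℂ := l * (x + 1) ^ 2 / x with hu
  have hu0 : u ≠ 0 := by
    refine div_ne_zero (mul_ne_zero hl (pow_ne_zero _ ?_)) hx2
    intro h4
    exact hx3 (eq_neg_of_add_eq_zero_left h4)
  set y : ℂ := l * (u + 1) ^ 2 / u with hy
  have h4 : (fam l)^[2] (x : Sph) = (y : Sph) := by
    show fam l (fam l (x : Sph)) = _
    rw [fam_coe l hx2, fam_coe l hu0]
  have h5 : ∀ n, ∃ w : ℂ, (fam l)^[n + 2] (x : Sph) = (w : Sph) ∧ ‖w‖ ≤ κ ^ n * ‖y‖ := by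
    intro n
    induction n with
    | zero => exact ⟨y, h4, by simp⟩
    | succ n ih =>
      obtain ⟨w, hw1, hw2⟩ := ih
      have h6 : R < ‖w‖ := hNRk w (by rw [← hw1]; exact h3 n)
      have hw0 : w ≠ 0 := by
        intro h0
        rw [h0, norm_zero] at h6
        linarith
      refine ⟨l * (w + 1) ^ 2 / w, ?_, ?_⟩
      · have e : n + 1 + 2 = (n + 2) + 1 := by ring
        rw [e, Function.iterate_succ_apply', hw1, fam_coe l hw0]
      · refine (hstep w h6).trans ?_
        rw [pow_succ]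
        calc κ * ‖w‖ ≤ κ * (κ ^ n * ‖y‖) := mul_le_mul_of_nonneg_left hw2 hκ0.le
          _ = κ ^ n * κ * ‖y‖ := by ring
  have h6 : Tendsto (fun n : ℕ => κ ^ n * ‖y‖) atTop (𝓝 (0 * ‖y‖)) :=
    (tendsto_pow_atTop_nhds_zero_of_lt_one hκ0.le hκ1).mul_const _
  rw [zero_mul] at h6
  obtain ⟨n, hn⟩ := (h6.eventually (gt_mem_nhds one_pos)).exists
  obtain ⟨w, hw1, hw2⟩ := h5 n
  have h7 : R < ‖w‖ := hNRk w (by rw [← hw1]; exact h3 n)
  linarith

end Pool.Agent.RCV
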