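import Pool.Agent.RCV.Defs

/-!
# RCV/FamD : the family, critical points
-/

set_option autoImplicit false

open Filter Topology MeasureTheory Set

namespace Pool.Agent.RCV

/-- `f` is not injective near `z`: `z` is a critical point of the rational map `f` -/
def Crit (f : Sph → Sph) (z : Sph) : Prop := ∀ V ∈ 𝓝 z, ¬InjOn f V

/-- The maps `f_l (z) = l (z + 1 / z + 2)`. The critical points are `1` and `-1`, and
`-1 ↦ 0 ↦ ∞ ↦ ∞`. -/
noncomputable def fam (l : ℂ) (x : Sph) : Sph :=
  x.elim OnePoint.infty fun z =>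
    if z = 0 then OnePoint.infty else ((l * (z + 1) ^ 2 / z : ℂ) : Sph)

end Pool.Agent.RCV
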