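import Mathlib

/-!
# RCV/Rep : a fixed point topologically conjugate to an indifferent fixed point is not repelling
-/

set_option autoImplicit false

open Filter Topology Set Metric

namespace Pool.Agent.RCV

theorem not_repelling {G ψ : ℂ → ℂ} {z₀ μ c a : ℂ} {N : Set ℂ} (hG : HasStrictDerivAt G μ z₀)
    (hz : G z₀ = z₀) (hN : IsOpen N) (hz₀ : z₀ ∈ N) (hψ : ContinuousOn ψ N) (hinj : InjOn ψ N)
    (hop : ∀ A ⊆ N, IsOpen A → IsOpen (ψ '' A))
    (hconj : ∀ x ∈ N, G x ∈ N → ψ (G x) = ψ x ^ 2 + c) (ha : ψ z₀ = a) (hμ : 1 < ‖μ‖) :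
    ‖2 * a‖ ≠ 1 := by
  intro ha1
  have ha0 : a ≠ 0 := by
    intro h0
    rw [h0, mul_zero, norm_zero] at ha1
    exact zero_ne_one ha1
  have hμ0 : μ ≠ 0 := by
    intro h0
    rw [h0, norm_zero] at hμ
    linarith
  -- the local inverse of `G`
  set e := (hG.hasStrictFDerivAt_equiv hμ0).toOpenPartialHomeomorph G with he
  have hcoe : (e : ℂ → ℂ) = G := HasStrictFDerivAt.toOpenPartialHomeomorph_coe _
  have hzs : z₀ ∈ e.source := HasStrictFDerivAt.mem_toOpenPartialHomeomorph_source _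
  have hzt : z₀ ∈ e.target := by
    have := e.map_source hzs
    rwa [hcoe, hz] at this
  set g : ℂ → ℂ := fun y => e.symm y with hg
  have hgz : g z₀ = z₀ := by
    have := e.left_inv hzs
    rwa [hcoe, hz] at this
  have hGg : ∀ y ∈ e.target, G (g y) = y := by
    intro y hy
    have := e.right_inv hy
    rwa [hcoe] at this
  have hgc : ContinuousOn g e.target := e.symm.continuousOn
  have hgd : HasDerivAt g μ⁻¹ z₀ := by
    refine e.hasDerivAt_symm hzt hμ0 ?_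
    rw [hcoe]
    have h1 : e.symm z₀ = z₀ := hgz
    rw [h1]
    exact hG.hasDerivAt
  obtain ⟨κ, hκ1, hκ2⟩ : ∃ κ : ℝ, ‖μ⁻¹‖ < κ ∧ κ < 1 := by
    refine exists_between ?_
    rw [norm_inv]
    exact inv_lt_one_of_one_lt₀ hμ
  have hκ0 : 0 < κ := lt_of_le_of_lt (norm_nonneg _) hκ1
  have hcontr : ∀ᶠ y in 𝓝 z₀, ‖g y - z₀‖ ≤ κ * ‖y - z₀‖ := by
    have h1 := (hasDerivAt_iff_isLittleO.1 hgd).def (sub_pos.2 hκ1)
    filter_upwards [h1] with y hy
    rw [hgz] at hy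
    calc ‖g y - z₀‖ = ‖(g y - z₀ - (y - z₀) • μ⁻¹) + (y - z₀) • μ⁻¹‖ := by rw [sub_add_cancel]
      _ ≤ ‖g y - z₀ - (y - z₀) • μ⁻¹‖ + ‖(y - z₀) • μ⁻¹‖ := norm_add_le _ _
      _ ≤ (κ - ‖μ⁻¹‖) * ‖y - z₀‖ + ‖y - z₀‖ * ‖μ⁻¹‖ := by
          rw [norm_smul]
          gcongr
      _ = κ * ‖y - z₀‖ := by ring
  have hψz : ContinuousAt ψ z₀ := hψ.continuousAt (hN.mem_nhds hz₀)
  have hne : ∀ᶠ y in 𝓝 z₀, ψ y ≠ 0 := hψz.eventually_ne (by rw [ha]; exact ha0)
  obtain ⟨r, hr, hball⟩ := Metric.eventually_nhds_iff_ball.1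
    (hcontr.and (hne.and ((hN.eventually_mem hz₀).and (e.open_target.eventually_mem hzt))))
  set B := ball z₀ r with hB
  have hz₀B : z₀ ∈ B := mem_ball_self hr
  have hBN : B ⊆ N := fun y hy => (hball y hy).2.2.1
  have hgB : ∀ y ∈ B, g y ∈ B := by
    intro y hy
    rw [hB, mem_ball, dist_eq_norm] at hy ⊢
    calc ‖g y - z₀‖ ≤ κ * ‖y - z₀‖ := (hball y (by rwa [mem_ball, dist_eq_norm])).1
      _ ≤ 1 * ‖y - z₀‖ := mul_le_mul_of_nonneg_right hκ2.le (norm_nonneg _)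
      _ < r := by rw [one_mul]; exact hy
  have hinjB : InjOn ψ B := hinj.mono hBN
  set Ω := ψ '' B with hΩ
  have hΩo : IsOpen Ω := hop B hBN isOpen_ball
  have haΩ : a ∈ Ω := ⟨z₀, hz₀B, ha⟩
  set s := Function.invFunOn ψ B with hs
  have hsB : ∀ w ∈ Ω, s w ∈ B := fun w hw => Function.invFunOn_mem hw
  have hψs : ∀ w ∈ Ω, ψ (s w) = w := fun w hw => Function.invFunOn_eq hw
  have hsψ : ∀ y ∈ B, s (ψ y) = y := fun y hy =>
    hinjB (hsB _ ⟨y, hy, rfl⟩) hy (hψs _ ⟨y, hy, rfl⟩)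
  have hsc : ∀ w ∈ Ω, ContinuousAt s w := by
    intro w hw
    rw [ContinuousAt, tendsto_def]
    intro A hA
    obtain ⟨A', hA'A, hA'o, hA'm⟩ := _root_.mem_nhds_iff.1 hA
    have h1 : IsOpen (ψ '' (A' ∩ B)) :=
      hop _ (inter_subset_right.trans hBN) (hA'o.inter isOpen_ball)
    refine mem_of_superset (h1.mem_nhds ⟨s w, ⟨hA'm, hsB w hw⟩, hψs w hw⟩) ?_
    rintro _ ⟨y, ⟨hy1, hy2⟩, rfl⟩
    show s (ψ y) ∈ A
    rw [hsψ y hy2]
    exact hA'A hy1
  -- the inverse branch of the polynomial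
  set Q : ℂ → ℂ := fun w => ψ (g (s w)) with hQ
  have hQΩ : ∀ w ∈ Ω, Q w ∈ Ω := fun w hw => ⟨g (s w), hgB _ (hsB w hw), rfl⟩
  have hPQ : ∀ w ∈ Ω, Q w ^ 2 + c = w := by
    intro w hw
    have h1 := hsB w hw
    have h2 := hgB _ h1
    have h3 : G (g (s w)) = s w := hGg _ (hball _ h1).2.2.2
    have h4 := hconj (g (s w)) (hBN h2) (by rw [h3]; exact hBN h1)
    rw [h3, hψs w hw] at h4
    exact h4.symm
  have hQc : ∀ w ∈ Ω, ContinuousAt Q w := by
    intro w hw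
    have h1 := hsB w hw
    have h2 : ContinuousAt g (s w) :=
      hgc.continuousAt (e.open_target.mem_nhds (hball _ h1).2.2.2)
    have h3 : ContinuousAt ψ (g (s w)) := hψ.continuousAt (hN.mem_nhds (hBN (hgB _ h1)))
    exact ContinuousAt.comp (f := fun w => g (s w)) (g := ψ) h3
      (ContinuousAt.comp (f := s) (g := g) h2 (hsc w hw))
  have hQ0 : ∀ w ∈ Ω, Q w ≠ 0 := fun w hw => (hball _ (hgB _ (hsB w hw))).2.1
  have hQd : ∀ w ∈ Ω, HasDerivAt Q (2 * Q w)⁻¹ w := by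
    intro w hw
    have h1 : HasDerivAt (fun x : ℂ => x ^ 2 + c) (2 * Q w) (Q w) := by
      have := ((hasDerivAt_id (Q w)).pow 2).add_const c
      simpa using this
    refine HasDerivAt.of_local_left_inverse (hQc w hw) h1
      (mul_ne_zero two_ne_zero (hQ0 w hw)) ?_
    filter_upwards [hΩo.mem_nhds hw] with y hy
    exact hPQ y hy
  have hsa : s a = z₀ := by rw [← ha]; exact hsψ z₀ hz₀B
  have hQa : Q a = a := by
    show ψ (g (s a)) = a
    rw [hsa, hgz, ha]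
  -- iterates of `Q`
  have hQit : ∀ n, ∀ w ∈ Ω, Q^[n] w ∈ Ω ∧ ‖s (Q^[n] w) - z₀‖ ≤ κ ^ n * r := by
    intro n
    induction n with
    | zero =>
      intro w hw
      refine ⟨hw, ?_⟩
      have := hsB w hw
      rw [hB, mem_ball, dist_eq_norm] at this
      simpa using this.le
    | succ n ih =>
      intro w hw
      obtain ⟨h1, h2⟩ := ih w hw
      rw [Function.iterate_succ_apply']
      refine ⟨hQΩ _ h1, ?_⟩
      have h3 : s (Q (Q^[n] w)) = g (s (Q^[n] w)) := hsψ _ (hgB _ (hsB _ h1))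
      rw [h3]
      calc ‖g (s (Q^[n] w)) - z₀‖ ≤ κ * ‖s (Q^[n] w) - z₀‖ := (hball _ (hsB _ h1)).1
        _ ≤ κ * (κ ^ n * r) := mul_le_mul_of_nonneg_left h2 hκ0.le
        _ = κ ^ (n + 1) * r := by ring
  have hQdiff : ∀ n, ∀ w ∈ Ω, DifferentiableAt ℂ Q^[n] w := by
    intro n
    induction n with
    | zero => intro w _; exact differentiableAt_id
    | succ n ih =>
      intro w hw
      rw [Function.iterate_succ']
      exact DifferentiableAt.comp w (hQd _ (hQit n w hw).1).differentiableAt (ih w hw)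
  obtain ⟨ρ, hρ, hρΩ⟩ := Metric.isOpen_iff.1 hΩo a haΩ
  obtain ⟨δ, hδ, hδψ⟩ := Metric.continuousAt_iff.1 hψz (ρ / 2) (by positivity)
  obtain ⟨n, hn⟩ : ∃ n : ℕ, κ ^ n * r < δ := by
    have h6 : Tendsto (fun n : ℕ => κ ^ n * r) atTop (𝓝 (0 * r)) :=
      (tendsto_pow_atTop_nhds_zero_of_lt_one hκ0.le hκ2).mul_const _
    rw [zero_mul] at h6
    exact (h6.eventually (gt_mem_nhds hδ)).exists
  have hQna : Q^[n] a = a := Function.iterate_fixed hQa n
  have hmaps : MapsTo Q^[n] (ball a ρ) (closedBall (Q^[n] a) (ρ / 2)) := by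
    intro w hw
    have h1 := hQit n w (hρΩ hw)
    have h2 : dist (s (Q^[n] w)) z₀ < δ := by
      rw [dist_eq_norm]
      exact h1.2.trans_lt hn
    have h3 := hδψ h2
    rw [hψs _ h1.1, ha] at h3
    rw [hQna]
    exact h3.le
  have h1 := Complex.norm_deriv_le_div_of_mapsTo_ball
    (fun w hw => (hQdiff n w (hρΩ hw)).differentiableWithinAt) hmaps hρ
  have h2 : HasDerivAt Q^[n] ((2 * Q a)⁻¹ ^ n) a := HasDerivAt.iterate a (hQd a haΩ) hQa n
  rw [h2.deriv, hQa, norm_pow, norm_inv, ha1, inv_one, one_pow] at h1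
  have h3 : ρ / 2 / ρ = 1 / 2 := by field_simp
  rw [h3] at h1
  norm_num at h1

end Pool.Agent.RCV
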