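import Pool.Agent.RCV.Pub
import Pool.Agent.RCV.Fam
import Pool.Agent.RCV.Rep
import Pool.Agent.RCV.Cons

/-!
# RCV/Main : a rational map with Julia set the sphere which is not conservative
-/

set_option autoImplicit false

open Filter Topology MeasureTheory Set Polynomial Metric

namespace Pool.Agent.RCV

section Filled

variable {F : Sph → Sph} {U V : Set Sph}

theorem filled_sub : Filled F U ⊆ U := fun _ hz => hz 0

theorem filled_maps : MapsTo F (Filled F U) (Filled F U) := by
  intro z hz n
  have := hz (n + 1)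
  rwa [Function.iterate_succ_apply] at this

theorem filled_closed (hF : Continuous F) (hQ : QuadraticLike F U V) : IsClosed (Filled F U) := by
  have h1 : IsClosed (U ∩ F ⁻¹' closure U) := hQ.proper _ hQ.subset isClosed_closure
  have h2 : Filled F U ⊆ U ∩ F ⁻¹' closure U := by
    intro z hz
    exact ⟨hz 0, subset_closure (hz 1)⟩
  have h3 : closure (Filled F U) ⊆ U := (closure_minimal h2 h1).trans inter_subset_left
  have h4 : MapsTo F (closure (Filled F U)) (closure (Filled F U)) := filled_maps.closure hF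
  refine isClosed_of_closure_subset fun z hz n => ?_
  exact h3 (h4.iterate n hz)

/-- points of the filled Julia set at which the iterates are equicontinuous are interior points -/
theorem filled_nhds {f : Sph → Sph} {p : ℕ} (hU : IsOpen U) (hK : IsClosed (Filled f^[p] U))
    {z : Sph} (hz : z ∈ Filled f^[p] U) (hE : Equi f z) : Filled f^[p] U ∈ 𝓝 z := by
  set W : Set (Sph × Sph) := ((Filled f^[p] U)ᶜ ×ˢ univ) ∪ (univ ×ˢ U) with hW
  have hWo : IsOpen W := (hK.isOpen_compl.prod isOpen_univ).union (isOpen_univ.prod hU)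
  have hWd : diagonal Sph ⊆ W := by
    rintro ⟨a, b⟩ hab
    rw [mem_diagonal_iff] at hab
    simp only at hab
    subst hab
    by_cases ha : a ∈ Filled f^[p] U
    · exact Or.inr ⟨mem_univ _, filled_sub ha⟩
    · exact Or.inl ⟨ha, mem_univ _⟩
  filter_upwards [hE W (hWo.mem_nhdsSet.2 hWd)] with x hx n
  have h1 : (f^[p])^[n] z ∈ Filled f^[p] U := filled_maps.iterate n hz
  rw [← Function.iterate_mul] at h1 ⊢
  rcases hx (p * n) with h2 | h2
  · exact absurd h1 h2.1
  · exact h2.2

theorem filled_interior {c : ℂ} {X : Set Sph} {φ : Sph → ℂ} (hH : Hybrid F U c X φ)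
    (hint : interior (K c) = ∅) : interior (Filled F U) = ∅ := by
  by_contra hne
  obtain ⟨z, hz⟩ := nonempty_iff_ne_empty.2 hne
  have h1 : IsOpen (φ '' interior (Filled F U)) :=
    hH.map_open _ (interior_subset.trans hH.subset) isOpen_interior
  have h2 : φ '' interior (Filled F U) ⊆ K c := by
    rw [← hH.image]
    exact image_mono interior_subset
  have h3 := interior_maximal h2 h1 ⟨z, hz, rfl⟩
  rw [hint] at h3
  exact h3

end Filled

/-- The maps `f_l`: the Julia set is the sphere, and there is a closed forward invariant set of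
positive area, not the sphere. -/
theorem exists_fam (hBC : BuffCheritat) (hM : McMullen) (hFS : FatouSullivan) :
    ∃ (l : ℂ) (N : Set Sph), l ≠ 0 ∧ Fatou (fam l) = ∅ ∧ IsClosed N ∧ N ≠ univ ∧
      MapsTo (fam l) N N ∧ ¬Null N := by
  obtain ⟨c, a, h0, ha, ha1, hint, hpos⟩ := hBC
  obtain ⟨l, p, U, V, X, φ, hl, hl1, hp, hinf, hQ, h1K, hH⟩ := hM c h0
  have hf := fam_rational hl
  set F := (fam l)^[p] with hFdef
  have hFc : Continuous F := hf.iter_cont p
  have hKc : IsClosed (Filled F U) := filled_closed hFc hQ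
  have hKint := filled_interior hH hint
  have hUinf : OnePoint.infty ∉ U := fun h => hinf (hQ.subset (subset_closure h))
  have hKJ : ∀ z ∈ Filled F U, z ∉ Fatou (fam l) := by
    rintro z hz ⟨W, hW, hE⟩
    have h1 := filled_nhds hQ.open_left hKc hz (hE z (mem_of_mem_nhds hW))
    have h2 := mem_interior_iff_mem_nhds.2 h1
    rw [hKint] at h2
    exact h2
  -- the Fatou set is empty
  have hJ : Fatou (fam l) = ∅ := by
    by_contra hne
    have hcrit : ∀ z ∈ Fatou (fam l), ¬Crit (fam l) z := by
      intro z hz hc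
      rcases crit_fam hl hc with h1 | h1
      · rw [h1] at hz
        exact hKJ _ h1K hz
      · rw [h1] at hz
        exact neg_one_julia hl hl1 hz
    have haK : a ∈ K c := by
      refine ⟨‖a‖, fun n => ?_⟩
      have h1 : (fun w : ℂ => w ^ 2 + c)^[n] a = a := Function.iterate_fixed ha n
      rw [h1]
    rw [← hH.image] at haK
    obtain ⟨z₁, hz₁, hφ⟩ := haK
    have hz₁X := hH.subset hz₁
    have hFz : F z₁ = z₁ := by
      have h1 : F z₁ ∈ X := hH.subset (filled_maps hz₁)
      refine hH.inj h1 hz₁X ?_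
      rw [hH.conj z₁ hz₁X h1, hφ, ha]
    have hz₁inf : z₁ ≠ OnePoint.infty := by
      intro h1
      rw [h1] at hz₁
      exact hUinf (filled_sub hz₁)
    obtain ⟨z₀, rfl⟩ : ∃ z₀ : ℂ, (z₀ : Sph) = z₁ := ⟨val z₁, coe_val hz₁inf⟩
    have hrep := hFS (num l) Polynomial.X (fam l) ((-1 : ℂ) : Sph) hf (fam_degree hl) (crit_neg_one l)
      (neg_one_julia hl hl1) ⟨2, 3, by norm_num, by
        rw [fam_iter_neg_one l 0, fam_iter_neg_one l 1]⟩
      (nonempty_iff_ne_empty.2 hne) hcrit z₀ p hp hFz (hKJ _ hz₁)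
    have hk : ∀ k ≤ p, (fam l)^[k] (z₀ : Sph) ≠ OnePoint.infty := by
      intro k hk h1
      have h2 : (fam l)^[p] (z₀ : Sph) = OnePoint.infty := by
        obtain ⟨j, rfl⟩ := Nat.exists_eq_add_of_le hk
        rw [add_comm, Function.iterate_add_apply, h1, fam_iter_infty]
      have h3 : F (z₀ : Sph) = OnePoint.infty := h2
      rw [hFz] at h3
      exact hz₁inf h3
    have hstrict := hf.iter_strict p hk
    set N : Set ℂ := {x : ℂ | (x : Sph) ∈ X ∧ F (x : Sph) ≠ OnePoint.infty} with hN
    have hNo : IsOpen N := by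
      refine IsOpen.inter (hH.isOpen.preimage OnePoint.continuous_coe) ?_
      exact isOpen_compl_singleton.preimage (hFc.comp OnePoint.continuous_coe)
    refine not_repelling (G := fun x : ℂ => val (F (x : Sph))) (ψ := fun x : ℂ => φ (x : Sph))
      (c := c) (a := a) (z₀ := z₀) (N := N) hstrict ?_ hNo ?_ ?_ ?_ ?_ ?_ hφ hrep ha1
    · show val (F (z₀ : Sph)) = z₀
      rw [hFz, val_coe]
    · exact ⟨hz₁X, by rw [hFz]; exact hz₁inf⟩
    · exact hH.cont.comp OnePoint.continuous_coe.continuousOn fun x hx => hx.1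
    · intro x hx y hy hxy
      exact OnePoint.coe_injective (hH.inj hx.1 hy.1 hxy)
    · intro A hA hAo
      have h1 : (fun x : ℂ => φ (x : Sph)) '' A = φ '' (((↑) : ℂ → Sph) '' A) := by
        rw [image_image]
      rw [h1]
      refine hH.map_open _ ?_ (OnePoint.isOpenEmbedding_coe.isOpenMap _ hAo)
      rintro _ ⟨x, hx, rfl⟩
      exact (hA hx).1
    · intro x hx hGx
      have h1 : ((val (F (x : Sph)) : ℂ) : Sph) = F (x : Sph) := coe_val hx.2
      show φ ((val (F (x : Sph)) : ℂ) : Sph) = φ (x : Sph) ^ 2 + c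
      rw [h1]
      refine hH.conj _ hx.1 ?_
      rw [← h1]
      exact hGx.1
  -- the invariant set
  refine ⟨l, ⋃ k ∈ Finset.range p, (fam l)^[k] '' Filled F U, hl, hJ, ?_, ?_, ?_, ?_⟩
  · refine isClosed_biUnion_finset fun k _ => ?_
    exact (hKc.isCompact.image (hf.iter_cont k)).isClosed
  · intro h1
    have h2 : (OnePoint.infty : Sph) ∈ ⋃ k ∈ Finset.range p, (fam l)^[k] '' Filled F U := by
      rw [h1]; exact mem_univ _
    simp only [mem_iUnion] at h2
    obtain ⟨k, hk, z, hz, hzk⟩ := h2
    rw [Finset.mem_range] at hk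
    have h3 : F z = OnePoint.infty := by
      obtain ⟨j, hj⟩ := Nat.exists_eq_add_of_le hk.le
      rw [hFdef, hj, add_comm, Function.iterate_add_apply, hzk, fam_iter_infty]
    have h4 : F z ∈ U := hz 1
    rw [h3] at h4
    exact hUinf h4
  · intro x hx
    simp only [mem_iUnion] at hx ⊢
    obtain ⟨k, hk, z, hz, rfl⟩ := hx
    rw [Finset.mem_range] at hk
    by_cases h1 : k + 1 < p
    · refine ⟨k + 1, Finset.mem_range.2 h1, z, hz, ?_⟩
      rw [Function.iterate_succ_apply']
    · have h2 : p = k + 1 := by omega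
      refine ⟨0, Finset.mem_range.2 hp, F z, filled_maps hz, ?_⟩
      rw [hFdef, h2, Function.iterate_succ_apply']
      rfl
  · intro h1
    have h2 : Null (Filled F U) := by
      refine h1.mono fun z hz => ?_
      simp only [mem_iUnion]
      exact ⟨0, Finset.mem_range.2 hp, z, hz, rfl⟩
    have h3 := (hH.null _ hH.subset).1 h2
    rw [hH.image] at h3
    exact hpos.ne' h3

end Pool.Agent.RCV
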