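import Pool.Agent.RCV.Rat
import Pool.Agent.RCV.Cau

/-!
# RCV/Mont : a family of iterates which omits a set of positive area is equicontinuous
-/

set_option autoImplicit false

open Filter Topology MeasureTheory Set Polynomial Metric

namespace Pool.Agent.RCV

namespace IsRational

variable {p q : ℂ[X]} {f : Sph → Sph} (h : IsRational p q f)
  (hd : 1 ≤ max p.natDegree q.natDegree)

include h hd

theorem cau_lip {O : Set ℂ} (hO : IsOpen O) {S : Set ℂ} (hS : IsCompact S)
    (hom : ∀ z ∈ O, ∀ n, f^[n] (z : Sph) ∉ ((↑) : ℂ → Sph) '' S) {φ : ℂ → ℂ} (hm : Measurable φ)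
    (hb : ∀ z, ‖φ z‖ ≤ 1) {w : ℂ} (hw : w ∈ O) :
    ∃ r L : ℝ, 0 < r ∧ 0 ≤ L ∧ ∀ n, ∀ x ∈ ball w r,
      dist (cauS S φ (f^[n] (x : Sph))) (cauS S φ (f^[n] (w : Sph))) ≤ L * dist x w := by
  obtain ⟨M, hM0, hM⟩ := cauS_bdd hS hm hb
  obtain ⟨ε, hε, hball⟩ := Metric.isOpen_iff.1 hO w hw
  set r : ℝ := ε / 2 with hr
  have hr0 : 0 < r := by positivity
  refine ⟨r, (M + M) / r, hr0, by positivity, fun n x hx => ?_⟩
  set u : ℂ → ℂ := fun x => cauS S φ (f^[n] (x : Sph)) with hu
  have hcont : Continuous u :=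
    (cauS_cont hS hm hb).comp ((h.iter_cont n).comp OnePoint.continuous_coe)
  set Bad : Set ℂ := ⋃ k, {z : ℂ | f^[k] (z : Sph) = OnePoint.infty} with hBad
  have hBadc : Bad.Countable := countable_iUnion fun k => h.countable_infty hd k
  have hdiff : ∀ z ∈ ball w r \ Bad, DifferentiableAt ℂ u z := by
    rintro z ⟨hz, hzB⟩
    have hz' : ∀ k, f^[k] (z : Sph) ≠ OnePoint.infty := by
      intro k hk
      exact hzB (mem_iUnion.2 ⟨k, hk⟩)
    have hzO : z ∈ O := hball (ball_subset_ball (by linarith) hz)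
    have h1 : val (f^[n] (z : Sph)) ∉ S := by
      intro h2
      exact hom z hzO n ⟨_, h2, coe_val (hz' n)⟩
    have h2 := cau_diff hS hm hb h1
    have h3 := h.iter_diff n fun k _ => hz' k
    have h4 : DifferentiableAt ℂ (fun x : ℂ => cau S φ (val (f^[n] (x : Sph)))) z :=
      DifferentiableAt.comp (g := cau S φ) z h2 h3
    refine h4.congr_of_eventuallyEq ?_
    have hc : Continuous fun x : ℂ => f^[n] (x : Sph) :=
      (h.iter_cont n).comp OnePoint.continuous_coe
    have h5 : ∀ᶠ x : ℂ in 𝓝 z, f^[n] (x : Sph) ≠ OnePoint.infty :=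
      hc.continuousAt.eventually_ne (hz' n)
    filter_upwards [h5] with x h6
    show cauS S φ (f^[n] (x : Sph)) = _
    conv_lhs => rw [← coe_val h6]
    rfl
  have hps := Complex.hasFPowerSeriesOnBall_of_differentiable_off_countable
    (R := ⟨r, hr0.le⟩) hBadc hcont.continuousOn hdiff hr0
  have hDO : DifferentiableOn ℂ u (ball w r) := by
    have h1 := hps.differentiableOn
    rwa [Metric.eball_coe] at h1
  have hmaps : MapsTo u (ball w r) (closedBall (u w) (M + M)) := by
    intro z _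
    rw [mem_closedBall, dist_eq_norm]
    calc ‖u z - u w‖ ≤ ‖u z‖ + ‖u w‖ := norm_sub_le _ _
      _ ≤ M + M := add_le_add (hM _).le (hM _).le
  exact Complex.dist_le_div_mul_dist_of_mapsTo_ball hDO hmaps hx

/-- A family of iterates which omits a compact set of positive area is equicontinuous. -/
theorem equi_of_omit {O : Set ℂ} (hO : IsOpen O) {S : Set ℂ} (hS : IsCompact S)
    (hpos : volume S ≠ 0) (hom : ∀ z ∈ O, ∀ n, f^[n] (z : Sph) ∉ ((↑) : ℂ → Sph) '' S) {w : ℂ}
    (hw : w ∈ O) : Equi f (w : Sph) := by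
  intro W hW
  obtain ⟨W', hW'W, hW'o, hW'd⟩ := mem_nhdsSet_iff_exists.1 hW |>.imp fun t ht =>
    (⟨ht.2.2, ht.1, ht.2.1⟩ : t ⊆ W ∧ IsOpen t ∧ diagonal Sph ⊆ t)
  have hC : IsCompact W'ᶜ := hW'o.isClosed_compl.isCompact
  have key : ∀ᶠ x in 𝓝 (w : Sph), ∀ n, (f^[n] (w : Sph), f^[n] x) ∉ W'ᶜ := by
    refine hC.induction_on (p := fun s => ∀ᶠ x in 𝓝 (w : Sph), ∀ n,
      (f^[n] (w : Sph), f^[n] x) ∉ s) ?_ ?_ ?_ ?_
    · exact Eventually.of_forall fun x n => notMem_empty _
    · intro s t hst ht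
      filter_upwards [ht] with x hx n hn
      exact hx n (hst hn)
    · intro s t hs ht
      filter_upwards [hs, ht] with x h1 h2 n hn
      exact hn.elim (h1 n) (h2 n)
    · rintro ⟨a, b⟩ hab
      have hne : a ≠ b := by
        intro e
        exact hab (hW'd (by rw [mem_diagonal_iff]; exact e))
      obtain ⟨φ, hm, hb, hsep⟩ := cauS_sep hS hpos hne
      have hc := cauS_cont hS hm hb
      set δ : ℝ := dist (cauS S φ a) (cauS S φ b) / 2 with hδ
      have hδ0 : 0 < δ := by
        have := dist_pos.2 hsep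
        positivity
      refine ⟨{z : Sph × Sph | δ < dist (cauS S φ z.1) (cauS S φ z.2)}, ?_, ?_⟩
      · refine mem_nhdsWithin_of_mem_nhds ?_
        have ho : IsOpen {z : Sph × Sph | δ < dist (cauS S φ z.1) (cauS S φ z.2)} :=
          isOpen_lt continuous_const
            ((hc.comp continuous_fst).dist (hc.comp continuous_snd))
        refine ho.mem_nhds ?_
        show δ < dist (cauS S φ a) (cauS S φ b)
        linarith [dist_pos.2 hsep]
      · obtain ⟨r, L, hr, hL, hlip⟩ := h.cau_lip hd hO hS hom hm hb hw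
        rw [OnePoint.nhds_coe_eq, eventually_map]
        have h1 : ∀ᶠ x in 𝓝 w, x ∈ ball w r := ball_mem_nhds w hr
        have h2 : ∀ᶠ x in 𝓝 w, L * dist x w < δ := by
          have h3 : Tendsto (fun x => L * dist x w) (𝓝 w) (𝓝 (L * dist w w)) :=
            (continuous_const.mul (continuous_id.dist continuous_const)).tendsto w
          rw [dist_self, mul_zero] at h3
          exact h3.eventually (gt_mem_nhds hδ0)
        filter_upwards [h1, h2] with x hx hx2 n hn
        have h4 := hlip n x hx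
        have h5 : δ < dist (cauS S φ (f^[n] (w : Sph))) (cauS S φ (f^[n] (x : Sph))) := hn
        rw [dist_comm] at h5
        linarith
  filter_upwards [key] with x hx n
  exact hW'W (not_not.1 (hx n))

end IsRational

end Pool.Agent.RCV
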