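import Pool.Agent.RCV.FamD

/-!
# RCV/Pub : three published theorems
-/

set_option autoImplicit false

open Filter Topology MeasureTheory Set

namespace Pool.Agent.RCV

/-- the filled Julia set of `z ^ 2 + c` -/
def K (c : ℂ) : Set ℂ := {z | ∃ R : ℝ, ∀ n : ℕ, ‖(fun w : ℂ => w ^ 2 + c)^[n] z‖ ≤ R}

/-- Buff, Chéritat, Quadratic Julia sets with positive area, Annals of Math. 176 (2012), Theorem 1:
there is a quadratic polynomial with a Cremer fixed point `a` (so its filled Julia set is connected
and has no interior) whose Julia set has positive area. -/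
def BuffCheritat : Prop :=
  ∃ c a : ℂ, 0 ∈ K c ∧ a ^ 2 + c = a ∧ ‖2 * a‖ = 1 ∧ interior (K c) = ∅ ∧ 0 < volume (K c)

/-- `F : U → V` is quadratic-like with critical point `1`: `U` and `V` are discs, the closure of `U`
is in `V` and `F : U → V` is proper of degree two. -/
structure QuadraticLike (F : Sph → Sph) (U V : Set Sph) : Prop where
  open_left : IsOpen U
  open_right : IsOpen V
  disc_left : Nonempty (U ≃ₜ ℂ)
  disc_right : Nonempty (V ≃ₜ ℂ)
  subset : closure U ⊆ V
  maps : MapsTo F U V
  proper : ∀ C ⊆ V, IsClosed C → IsClosed (U ∩ F ⁻¹' C)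
  one_mem : ((1 : ℂ) : Sph) ∈ U
  critical : ∀ z ∈ U, F z = F ((1 : ℂ) : Sph) → z = ((1 : ℂ) : Sph)
  degree : ∀ w ∈ V, w ≠ F ((1 : ℂ) : Sph) → (U ∩ F ⁻¹' {w}).ncard = 2

/-- the filled Julia set of `F : U → V` -/
def Filled (F : Sph → Sph) (U : Set Sph) : Set Sph := {z | ∀ n : ℕ, F^[n] z ∈ U}

/-- The homeomorphism `φ` from the neighbourhood `X` of the filled Julia set of `F : U → V` to a
neighbourhood of the filled Julia set of `z ^ 2 + c` is a conjugacy and preserves the sets of area
zero. (Hybrid equivalences are quasiconformal, hence absolutely continuous.) -/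
structure Hybrid (F : Sph → Sph) (U : Set Sph) (c : ℂ) (X : Set Sph) (φ : Sph → ℂ) : Prop where
  isOpen : IsOpen X
  subset : Filled F U ⊆ X
  cont : ContinuousOn φ X
  inj : InjOn φ X
  map_open : ∀ A ⊆ X, IsOpen A → IsOpen (φ '' A)
  image : φ '' Filled F U = K c
  conj : ∀ z ∈ X, F z ∈ X → φ (F z) = φ z ^ 2 + c
  null : ∀ A ⊆ X, Null A ↔ volume (φ '' A) = 0

/-- McMullen, The Mandelbrot set is universal (2000), and Douady, Hubbard, On the dynamics of
polynomial-like mappings (1985), for the family `f_l (z) = l (z + 1 / z + 2)`, `0 < |l| < 1`. Near the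
parameter `l₀ = (-3 + i √7) / 8`, for which the orbit of the critical point `1` ends in a repelling
fixed point, there are small copies of the Mandelbrot set: for every `c` in the Mandelbrot set
(that is, `0 ∈ K c`) there are `l` and `p ≥ 1` for which `f_l^p` has a quadratic-like restriction
`U → V`, with critical point `1`, which is hybrid equivalent to `z ^ 2 + c`. -/
def McMullen : Prop :=
  ∀ c : ℂ, 0 ∈ K c → ∃ (l : ℂ) (p : ℕ) (U V X : Set Sph) (φ : Sph → ℂ),
    l ≠ 0 ∧ ‖l‖ < 1 ∧ 1 ≤ p ∧ OnePoint.infty ∉ V ∧ QuadraticLike (fam l)^[p] U V ∧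
      ((1 : ℂ) : Sph) ∈ Filled (fam l)^[p] U ∧ Hybrid (fam l)^[p] U c X φ

/-- Fatou, Sullivan (Annals of Math. 122, 1985), Shishikura (On the quasiconformal surgery of
rational functions, 1987), Epstein (Infinitesimal Thurston rigidity and the Fatou-Shishikura
inequality, 1999). Let `f` be a rational map of degree two and `c` a critical point in the Julia set
with finite orbit. If the Fatou set is not empty and contains no critical point, then all cycles in
the Julia set are repelling.
(The Fatou set has a periodic component, Sullivan. Attracting and parabolic basins contain critical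
points, Fatou. There are no Herman rings in degree two, Shishikura. So there is a cycle of Siegel
discs, and the number of non-repelling cycles is at most the number of infinite tails of critical
orbits, Epstein; this number is at most one.) -/
def FatouSullivan : Prop :=
  ∀ (p q : Polynomial ℂ) (f : Sph → Sph) (c : Sph), IsRational p q f →
    max p.natDegree q.natDegree = 2 → Crit f c → c ∉ Fatou f →
    (∃ m n : ℕ, m < n ∧ f^[m] c = f^[n] c) → (Fatou f).Nonempty → (∀ z ∈ Fatou f, ¬Crit f z) →
    ∀ (z : ℂ) (n : ℕ), 1 ≤ n → f^[n] (z : Sph) = z → (z : Sph) ∉ Fatou f →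
      1 < ‖deriv (fun x : ℂ => val (f^[n] (x : Sph))) z‖

end Pool.Agent.RCV
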